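import Mathlib
import Pool.Agent.MazurQ.Lin

/-!
Surfaces of tridegree (2,2,2) in a product of three projective lines: definitions.
-/

namespace Pool.Agent.K3M

open MvPolynomial Topology Pool.Agent.MazurC Pool.Agent.MazurT Pool.Agent.MazurQ

/-- The tensor product of three vectors (Segre embedding of three projective lines); the
coordinate of index `4 i + 2 j + k` is `x i * y j * z k`. -/
def seg {R : Type*} [Mul R] (x y z : Fin 2 → R) : Fin 8 → R :=
  ![x 0 * y 0 * z 0, x 0 * y 0 * z 1, x 0 * y 1 * z 0, x 0 * y 1 * z 1,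
    x 1 * y 0 * z 0, x 1 * y 0 * z 1, x 1 * y 1 * z 0, x 1 * y 1 * z 1]

/-- The quadratic forms vanishing on the Segre variety, and `G`: equations of the surface of
tridegree (2,2,2) defined by `G`. -/
def surf {K : Type} [Field K] (G : MvPolynomial (Fin 8) K) : Set (MvPolynomial (Fin 8) K) :=
  {p | p.IsHomogeneous 2 ∧ ∀ x y z : Fin 2 → K, eval (seg x y z) p = 0} ∪ {G}

/-- The binary digits. -/
def dg (i : Fin 3) (l : Fin 8) : Fin 2 :=
  (![![0, 0, 0, 0, 1, 1, 1, 1], ![0, 0, 1, 1, 0, 0, 1, 1], ![0, 1, 0, 1, 0, 1, 0, 1]] :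
    Fin 3 → Fin 8 → Fin 2) i l

/-- The Segre embedding, the factors being permuted. -/
def segp (π : Equiv.Perm (Fin 3)) {R : Type*} [Mul R] (x y z : Fin 2 → R) : Fin 8 → R :=
  fun l => x (dg (π 0) l) * y (dg (π 1) l) * z (dg (π 2) l)

/-- The index of the coordinate `x a * y b` of `x ⊗ y`. -/
def ix (a b : Fin 2) : Fin 4 := (![![0, 1], ![2, 3]] : Fin 2 → Fin 2 → Fin 4) a b

/-- The tensor product of two vectors. -/
def tw {R : Type*} [Mul R] (x y : Fin 2 → R) : Fin 4 → R :=
  ![x 0 * y 0, x 0 * y 1, x 1 * y 0, x 1 * y 1]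

/-- The embedding of the fibre over `z`. -/
def embz (π : Equiv.Perm (Fin 3)) {R : Type*} [Mul R] (z : Fin 2 → R) (w : Fin 4 → R) :
    Fin 8 → R :=
  fun l => w (ix (dg (π 0) l) (dg (π 1) l)) * z (dg (π 2) l)

/-- The equation of the Segre quadric. -/
noncomputable def Q0 (K : Type) [Field K] : MvPolynomial (Fin 4) K := X 0 * X 3 - X 1 * X 2

/-- Restriction to the fibre over `z`. -/
noncomputable def fib (π : Equiv.Perm (Fin 3)) {K : Type} [Field K] (z : Fin 2 → K)
    (p : MvPolynomial (Fin 8) K) : MvPolynomial (Fin 4) K :=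
  aeval (fun l => X (ix (dg (π 0) l) (dg (π 1) l)) * C (z (dg (π 2) l))) p

/-- The embedding into the algebraic closure. -/
noncomputable abbrev ac (K : Type) [Field K] : K →+* AlgebraicClosure K :=
  algebraMap K (AlgebraicClosure K)

/-- No line of the three rulings lies on the surface (geometrically). -/
def NL {K : Type} [Field K] (G : MvPolynomial (Fin 8) K) : Prop :=
  ∀ (π : Equiv.Perm (Fin 3)) (y z : Fin 2 → AlgebraicClosure K), y ≠ 0 → z ≠ 0 →
    ∃ x : Fin 2 → AlgebraicClosure K, eval₂ (ac K) (segp π x y z) G ≠ 0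

/-- The determinant of two vectors. -/
def dt {R : Type*} [CommRing R] (x y : Fin 2 → R) : R := x 0 * y 1 - x 1 * y 0

/-- The height inequality with constant `c`. -/
def HI {K : Type} [Field K] [NumberField K] (G : MvPolynomial (Fin 8) K) (c : ℝ) : Prop :=
  ∀ (π : Equiv.Perm (Fin 3)) (x x' y z : Fin 2 → K) (e : K), x ≠ 0 → x' ≠ 0 → y ≠ 0 → z ≠ 0 →
    e ≠ 0 → (∀ u : Fin 2 → K, eval (segp π u y z) G = e * dt u x * dt u x') →
    2 * Height.logHeight y + 2 * Height.logHeight z
      ≤ Height.logHeight x + Height.logHeight x' + c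

/-- Forms of bidegree (2,2) and their coefficients. -/
def bi {R : Type*} [CommRing R] (g : Fin 3 → Fin 3 → R) (x y : Fin 2 → R) : R :=
  ∑ i : Fin 3, ∑ j : Fin 3, g i j * (x 0 ^ (2 - (i : ℕ)) * x 1 ^ (i : ℕ)) *
    (y 0 ^ (2 - (j : ℕ)) * y 1 ^ (j : ℕ))

/-- Bilinear forms. -/
def bl {R : Type*} [CommRing R] (b : Fin 2 → Fin 2 → R) (x y : Fin 2 → R) : R :=
  ∑ i : Fin 2, ∑ j : Fin 2, b i j * x i * y j

/-- The affine chart `x = (X, 1)`, `y = (t, 1)` of the Segre quadric: the images of the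
coordinates in `K[t][X]` are `X t`, `X`, `t`, `1`. -/
noncomputable def th (K : Type) [Field K] : MvPolynomial (Fin 4) K →+* Polynomial (Polynomial K) :=
  eval₂Hom (Polynomial.C.comp Polynomial.C)
    ![Polynomial.X * Polynomial.C Polynomial.X, Polynomial.X, Polynomial.C Polynomial.X, 1]

/-- The rational points of the surface. -/
def XA {K : Type} [Field K] (G : MvPolynomial (Fin 8) K) : Set (Fin 8 → K) :=
  {u | ∀ g ∈ surf G, eval u g = 0}

/-- The polynomials vanishing on the surface (geometrically). -/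
def IX {K : Type} [Field K] (G : MvPolynomial (Fin 8) K) : Set (MvPolynomial (Fin 8) K) :=
  {f | ∀ u : Fin 8 → AlgebraicClosure K, (∀ g ∈ surf G, eval₂ (ac K) u g = 0) →
    eval₂ (ac K) u f = 0}

end Pool.Agent.K3M
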