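import Mathlib
import Pool.Agent.K3M.Defs

/-!
Surfaces of tridegree (2,2,2) in a product of three projective lines: basic facts.
-/

namespace Pool.Agent.K3M

open MvPolynomial Topology Pool.Agent.MazurC Pool.Agent.MazurT Pool.Agent.MazurQ

section Seg

variable {R : Type*} [CommRing R]

theorem segp_one (x y z : Fin 2 → R) : segp 1 x y z = seg x y z := by
  funext l
  fin_cases l <;> simp [segp, seg, dg]

theorem segp_swap01 (π : Equiv.Perm (Fin 3)) (x y z : Fin 2 → R) :
    segp (π * Equiv.swap 0 1) y x z = segp π x y z := by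
  funext l
  simp only [segp, Equiv.Perm.coe_mul, Function.comp_apply, Equiv.swap_apply_left,
    Equiv.swap_apply_right]
  rw [Equiv.swap_apply_of_ne_of_ne (by decide) (by decide)]
  ring

theorem segp_swap02 (π : Equiv.Perm (Fin 3)) (x y z : Fin 2 → R) :
    segp (π * Equiv.swap 0 2) z y x = segp π x y z := by
  funext l
  simp only [segp, Equiv.Perm.coe_mul, Function.comp_apply, Equiv.swap_apply_left,
    Equiv.swap_apply_right]
  rw [Equiv.swap_apply_of_ne_of_ne (by decide) (by decide)]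
  ring

theorem segp_swap12 (π : Equiv.Perm (Fin 3)) (x y z : Fin 2 → R) :
    segp (π * Equiv.swap 1 2) x z y = segp π x y z := by
  funext l
  simp only [segp, Equiv.Perm.coe_mul, Function.comp_apply, Equiv.swap_apply_left,
    Equiv.swap_apply_right]
  rw [Equiv.swap_apply_of_ne_of_ne (by decide) (by decide)]
  ring

/-- Every permuted Segre vector is a Segre vector. -/
theorem segp_eq_seg (π : Equiv.Perm (Fin 3)) (x y z : Fin 2 → R) :
    segp π x y z = seg ((![x, y, z] : Fin 3 → Fin 2 → R) (π.symm 0))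
      ((![x, y, z] : Fin 3 → Fin 2 → R) (π.symm 1))
      ((![x, y, z] : Fin 3 → Fin 2 → R) (π.symm 2)) := by
  rw [← segp_one]
  funext l
  have h : ∀ σ : Equiv.Perm (Fin 3), ∀ a : Fin 3 → Fin 3 → R,
      a 0 (σ 0) * a 1 (σ 1) * a 2 (σ 2) =
        a (σ.symm 0) 0 * a (σ.symm 1) 1 * a (σ.symm 2) 2 := by
    intro σ a
    have h1 : ∏ i : Fin 3, a i (σ i) = ∏ j : Fin 3, a (σ.symm j) j := by
      rw [← Equiv.prod_comp σ (fun j => a (σ.symm j) j)]
      simp
    simpa only [Fin.prod_univ_three] using h1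
  have h2 := h π (fun i j => (![x, y, z] : Fin 3 → Fin 2 → R) i (dg j l))
  simpa [segp] using h2

/-- Every Segre vector is a permuted Segre vector. -/
theorem exists_segp (π : Equiv.Perm (Fin 3)) (x y z : Fin 2 → R) (hx : x ≠ 0) (hy : y ≠ 0)
    (hz : z ≠ 0) : ∃ x' y' z' : Fin 2 → R, x' ≠ 0 ∧ y' ≠ 0 ∧ z' ≠ 0 ∧
      segp π x' y' z' = seg x y z := by
  have h0 : ∀ i : Fin 3, (![x, y, z] : Fin 3 → Fin 2 → R) i ≠ 0 := by
    intro i; fin_cases i
    · exact hx
    · exact hy
    · exact hz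
  refine ⟨(![x, y, z] : Fin 3 → Fin 2 → R) (π 0), (![x, y, z] : Fin 3 → Fin 2 → R) (π 1),
    (![x, y, z] : Fin 3 → Fin 2 → R) (π 2), h0 _, h0 _, h0 _, ?_⟩
  rw [segp_eq_seg]
  have h1 : ∀ i : Fin 3, (![(![x, y, z] : Fin 3 → Fin 2 → R) (π 0),
      (![x, y, z] : Fin 3 → Fin 2 → R) (π 1), (![x, y, z] : Fin 3 → Fin 2 → R) (π 2)] :
      Fin 3 → Fin 2 → R) i = (![x, y, z] : Fin 3 → Fin 2 → R) (π i) := by
    intro i; fin_cases i <;> rfl
  rw [h1, h1, h1]
  simp

theorem tw_ix (x y : Fin 2 → R) (a b : Fin 2) : tw x y (ix a b) = x a * y b := by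
  fin_cases a <;> fin_cases b <;> simp [tw, ix]

theorem embz_tw (π : Equiv.Perm (Fin 3)) (x y z : Fin 2 → R) :
    embz π z (tw x y) = segp π x y z := by
  funext l
  rw [embz, tw_ix, segp]

theorem embz_smul (π : Equiv.Perm (Fin 3)) (c : R) (z : Fin 2 → R) (w : Fin 4 → R) :
    embz π z (c • w) = c • embz π z w := by
  funext l
  simp only [embz, Pi.smul_apply, smul_eq_mul]
  ring

theorem segp_smul (π : Equiv.Perm (Fin 3)) (a b c : R) (x y z : Fin 2 → R) :
    segp π (a • x) (b • y) (c • z) = (a * b * c) • segp π x y z := by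
  funext l
  simp only [segp, Pi.smul_apply, smul_eq_mul]
  ring

theorem segp_map {S : Type*} [CommRing S] (φ : R →+* S) (π : Equiv.Perm (Fin 3))
    (x y z : Fin 2 → R) :
    segp π (fun i => φ (x i)) (fun i => φ (y i)) (fun i => φ (z i))
      = fun l => φ (segp π x y z l) := by
  funext l
  simp [segp]

theorem tw_map {S : Type*} [CommRing S] (φ : R →+* S) (x y : Fin 2 → R) :
    tw (fun i => φ (x i)) (fun i => φ (y i)) = fun l => φ (tw x y l) := by
  funext l
  fin_cases l <;> simp [tw]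

theorem embz_map {S : Type*} [CommRing S] (φ : R →+* S) (π : Equiv.Perm (Fin 3))
    (z : Fin 2 → R) (w : Fin 4 → R) :
    embz π (fun i => φ (z i)) (fun i => φ (w i)) = fun l => φ (embz π z w l) := by
  funext l
  simp [embz]

end Seg

section Field

variable {Ω : Type*} [Field Ω]

theorem exists_ne {x : Fin 2 → Ω} (hx : x ≠ 0) : ∃ a, x a ≠ 0 := Function.ne_iff.1 hx

theorem exists_dg (π : Equiv.Perm (Fin 3)) (a b c : Fin 2) :
    ∃ l, dg (π 0) l = a ∧ dg (π 1) l = b ∧ dg (π 2) l = c := by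
  revert π a b c
  decide

theorem segp_ne_zero (π : Equiv.Perm (Fin 3)) {x y z : Fin 2 → Ω} (hx : x ≠ 0) (hy : y ≠ 0)
    (hz : z ≠ 0) : segp π x y z ≠ 0 := by
  obtain ⟨a, ha⟩ := exists_ne hx
  obtain ⟨b, hb⟩ := exists_ne hy
  obtain ⟨c, hc⟩ := exists_ne hz
  obtain ⟨l, h1, h2, h3⟩ := exists_dg π a b c
  refine Function.ne_iff.2 ⟨l, ?_⟩
  simp only [segp, h1, h2, h3, Pi.zero_apply]
  exact mul_ne_zero (mul_ne_zero ha hb) hc

theorem seg_ne_zero {x y z : Fin 2 → Ω} (hx : x ≠ 0) (hy : y ≠ 0) (hz : z ≠ 0) :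
    seg x y z ≠ 0 := by
  rw [← segp_one]; exact segp_ne_zero 1 hx hy hz

theorem tw_ne_zero {x y : Fin 2 → Ω} (hx : x ≠ 0) (hy : y ≠ 0) : tw x y ≠ 0 := by
  obtain ⟨a, ha⟩ := exists_ne hx
  obtain ⟨b, hb⟩ := exists_ne hy
  refine Function.ne_iff.2 ⟨ix a b, ?_⟩
  rw [tw_ix]
  exact mul_ne_zero ha hb

theorem exists_tw {w : Fin 4 → Ω} (hw : w ≠ 0) (h : w 0 * w 3 = w 1 * w 2) :
    ∃ x y : Fin 2 → Ω, x ≠ 0 ∧ y ≠ 0 ∧ w = tw x y := by
  by_cases h0 : w 0 = 0
  · by_cases h1 : w 1 = 0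
    · refine ⟨![0, 1], ![w 2, w 3], ?_, ?_, ?_⟩
      · intro h2; simpa using congrFun h2 1
      · intro h2
        apply hw
        have e2 : w 2 = 0 := by simpa using congrFun h2 0
        have e3 : w 3 = 0 := by simpa using congrFun h2 1
        funext l; fin_cases l
        · exact h0
        · exact h1
        · exact e2
        · exact e3
      · funext l; fin_cases l <;> simp [tw, h0, h1]
    · have h2 : w 2 = 0 := by
        rw [h0, zero_mul] at h
        exact (mul_eq_zero.1 h.symm).resolve_left h1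
      refine ⟨![w 1, w 3], ![0, 1], ?_, ?_, ?_⟩
      · intro h3; exact h1 (by simpa using congrFun h3 0)
      · intro h3; simpa using congrFun h3 1
      · funext l; fin_cases l <;> simp [tw, h0, h2]
  · refine ⟨![1, w 2 / w 0], ![w 0, w 1], ?_, ?_, ?_⟩
    · intro h3; simpa using congrFun h3 0
    · intro h3; exact h0 (by simpa using congrFun h3 0)
    · funext l
      fin_cases l
      · simp [tw]
      · simp [tw]
      · simp [tw, h0]
      · simp only [tw]
        show w 3 = w 2 / w 0 * w 1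
        field_simp
        linear_combination h

/-- Parallel vectors of the plane. -/
theorem exists_smul_of_dt {x y : Fin 2 → Ω} (hx : x ≠ 0) (hy : y ≠ 0) (h : dt x y = 0) :
    ∃ c : Ω, c ≠ 0 ∧ x = c • y := by
  rw [dt] at h
  by_cases h0 : y 0 = 0
  · have h1 : y 1 ≠ 0 := by
      intro h1
      apply hy
      funext l; fin_cases l
      · exact h0
      · exact h1
    have h2 : x 0 = 0 := by
      rw [h0, mul_zero, sub_zero] at h
      exact (mul_eq_zero.1 h).resolve_right h1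
    have h3 : x 1 ≠ 0 := by
      intro h3
      apply hx
      funext l; fin_cases l
      · exact h2
      · exact h3
    refine ⟨x 1 / y 1, div_ne_zero h3 h1, ?_⟩
    funext l; fin_cases l
    · simp [h2, h0]
    · simp [h1]
  · have h3 : x 0 ≠ 0 := by
      intro h3
      rw [h3, zero_mul, zero_sub, neg_eq_zero] at h
      have h4 : x 1 = 0 := (mul_eq_zero.1 h).resolve_right h0
      apply hx
      funext l; fin_cases l
      · exact h3
      · exact h4
    refine ⟨x 0 / y 0, div_ne_zero h3 h0, ?_⟩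
    funext l; fin_cases l
    · simp [h0]
    · simp only [Pi.smul_apply, smul_eq_mul]
      show x 1 = x 0 / y 0 * y 1
      field_simp
      linear_combination -h

end Field

section Poly

variable {K : Type} [Field K]

theorem eval₂_fib {S : Type*} [CommRing S] (φ : K →+* S) (π : Equiv.Perm (Fin 3))
    (z : Fin 2 → K) (w : Fin 4 → S) (p : MvPolynomial (Fin 8) K) :
    eval₂ φ w (fib π z p) = eval₂ φ (embz π (fun i => φ (z i)) w) p := by
  rw [fib, ← coe_eval₂Hom, ← coe_eval₂Hom, aeval_def, ← coe_eval₂Hom, ← RingHom.comp_apply]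
  congr 1
  apply ringHom_ext
  · intro r; simp [algebraMap_eq]
  · intro l; simp [embz]

theorem eval_fib (π : Equiv.Perm (Fin 3)) (z : Fin 2 → K) (w : Fin 4 → K)
    (p : MvPolynomial (Fin 8) K) : eval w (fib π z p) = eval (embz π z w) p :=
  eval₂_fib (RingHom.id K) π z w p

theorem fib_hom (π : Equiv.Perm (Fin 3)) (z : Fin 2 → K) {p : MvPolynomial (Fin 8) K} {d : ℕ}
    (hp : p.IsHomogeneous d) : (fib π z p).IsHomogeneous d := by
  have h := hp.aeval (fun l => (X (ix (dg (π 0) l) (dg (π 1) l)) * C (z (dg (π 2) l)) :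
    MvPolynomial (Fin 4) K)) (n := 1) (fun l => by
      have := (isHomogeneous_X K (ix (dg (π 0) l) (dg (π 1) l))).mul
        (isHomogeneous_C (Fin 4) (z (dg (π 2) l)))
      simpa using this)
  rwa [one_mul] at h

theorem eval₂_Q0 {S : Type*} [CommRing S] (φ : K →+* S) (w : Fin 4 → S) :
    eval₂ φ w (Q0 K) = w 0 * w 3 - w 1 * w 2 := by
  rw [Q0, ← coe_eval₂Hom]
  simp

theorem eval_Q0 (w : Fin 4 → K) : eval w (Q0 K) = w 0 * w 3 - w 1 * w 2 :=
  eval₂_Q0 (RingHom.id K) w

theorem Q0_hom : (Q0 K).IsHomogeneous 2 := by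
  refine IsHomogeneous.sub ?_ ?_
  · exact (isHomogeneous_X K 0).mul (isHomogeneous_X K 3)
  · exact (isHomogeneous_X K 1).mul (isHomogeneous_X K 2)

theorem tw_Q0 {R : Type*} [CommRing R] (x y : Fin 2 → R) :
    tw x y 0 * tw x y 3 = tw x y 1 * tw x y 2 := by
  simp only [tw]
  show x 0 * y 0 * (x 1 * y 1) = x 0 * y 1 * (x 1 * y 0)
  ring

theorem eval₂_genseg {T : Type*} [CommRing T] (ψ : K →+* T) (v : Fin 3 × Fin 2 → T)
    (p : MvPolynomial (Fin 8) K) :
    eval₂ ψ v (eval₂ C (seg (fun a => (X (0, a) : MvPolynomial (Fin 3 × Fin 2) K))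
        (fun a => X (1, a)) (fun a => X (2, a))) p)
      = eval₂ ψ (seg (fun a => v (0, a)) (fun a => v (1, a)) (fun a => v (2, a))) p := by
  rw [← coe_eval₂Hom, ← coe_eval₂Hom, ← coe_eval₂Hom, ← RingHom.comp_apply]
  congr 1
  apply ringHom_ext
  · intro r; simp
  · intro l
    fin_cases l <;> simp [seg]

/-- Identities between values at Segre vectors over an infinite field are universal. -/
theorem eval₂_seg_zero [Infinite K] {S : Type*} [CommRing S] (φ : K →+* S)
    {p : MvPolynomial (Fin 8) K}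
    (hp : ∀ x y z : Fin 2 → K, eval (seg x y z) p = 0) (x y z : Fin 2 → S) :
    eval₂ φ (seg x y z) p = 0 := by
  have h0 : eval₂ C (seg (fun a => (X (0, a) : MvPolynomial (Fin 3 × Fin 2) K))
        (fun a => X (1, a)) (fun a => X (2, a))) p = (0 : MvPolynomial (Fin 3 × Fin 2) K) := by
    apply MvPolynomial.funext
    intro v
    rw [map_zero]
    exact (eval₂_genseg (RingHom.id K) v p).trans (hp _ _ _)
  have h1 := eval₂_genseg φ (fun q => (![x, y, z] : Fin 3 → Fin 2 → S) q.1 q.2) p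
  rw [h0] at h1
  have h2 : eval₂ φ (fun q => (![x, y, z] : Fin 3 → Fin 2 → S) q.1 q.2)
      (0 : MvPolynomial (Fin 3 × Fin 2) K) = 0 := eval₂_zero _ _
  rw [h2] at h1
  exact h1.symm

/-- The Segre variety is the zero set of the quadratic forms vanishing on it. -/
theorem exists_seg {Ω : Type*} [Field Ω] (φ : K →+* Ω) {u : Fin 8 → Ω} (hu : u ≠ 0)
    (h : ∀ p : MvPolynomial (Fin 8) K, p.IsHomogeneous 2 →
      (∀ x y z : Fin 2 → K, eval (seg x y z) p = 0) → eval₂ φ u p = 0) :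
    ∃ x y z : Fin 2 → Ω, x ≠ 0 ∧ y ≠ 0 ∧ z ≠ 0 ∧ u = seg x y z := by
  have hq : ∀ a b c d : Fin 8, (∀ x y z : Fin 2 → K,
      seg x y z a * seg x y z b = seg x y z c * seg x y z d) → u a * u b = u c * u d := by
    intro a b c d habcd
    have h1 := h (X a * X b - X c * X d) (IsHomogeneous.sub
      ((isHomogeneous_X K a).mul (isHomogeneous_X K b))
      ((isHomogeneous_X K c).mul (isHomogeneous_X K d))) (by
        intro x y z
        simp only [map_sub, map_mul, eval_X]
        rw [habcd, sub_self])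
    rw [← coe_eval₂Hom] at h1
    simp only [map_sub, map_mul, coe_eval₂Hom, eval₂_X] at h1
    exact sub_eq_zero.1 h1
  have hs : ∀ (x y z : Fin 2 → K),
      (seg x y z 0 = x 0 * y 0 * z 0) ∧ (seg x y z 1 = x 0 * y 0 * z 1) ∧
      (seg x y z 2 = x 0 * y 1 * z 0) ∧ (seg x y z 3 = x 0 * y 1 * z 1) ∧
      (seg x y z 4 = x 1 * y 0 * z 0) ∧ (seg x y z 5 = x 1 * y 0 * z 1) ∧
      (seg x y z 6 = x 1 * y 1 * z 0) ∧ (seg x y z 7 = x 1 * y 1 * z 1) :=
    fun x y z => ⟨rfl, rfl, rfl, rfl, rfl, rfl, rfl, rfl⟩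
  have hh : ∀ (x y z : Fin 2 → K) (l : Fin 8), seg x y z l = x (dg 0 l) * y (dg 1 l) * z (dg 2 l)
      := by
    intro x y z l
    rw [← segp_one]
    rfl
  -- swapping one digit
  have hsw : ∀ (i : Fin 3) (l m l' m' : Fin 8), dg i l' = dg i m → dg i m' = dg i l →
      (∀ j, j ≠ i → dg j l' = dg j l ∧ dg j m' = dg j m) → u l * u m = u l' * u m' := by
    intro i l m l' m' h1 h2 h3
    apply hq
    intro x y z
    rw [hh, hh, hh, hh]
    fin_cases i
    · obtain ⟨e1, e2⟩ := h3 1 (by decide)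
      obtain ⟨e3, e4⟩ := h3 2 (by decide)
      simp only [Fin.zero_eta] at h1 h2
      rw [h1, h2, e1, e2, e3, e4]; ring
    · obtain ⟨e1, e2⟩ := h3 0 (by decide)
      obtain ⟨e3, e4⟩ := h3 2 (by decide)
      simp only [Fin.mk_one] at h1 h2
      rw [h1, h2, e1, e2, e3, e4]; ring
    · obtain ⟨e1, e2⟩ := h3 0 (by decide)
      obtain ⟨e3, e4⟩ := h3 1 (by decide)
      have h1' : dg 2 l' = dg 2 m := h1
      have h2' : dg 2 m' = dg 2 l := h2
      rw [h1', h2', e1, e2, e3, e4]; ring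
  have hdg : ∀ a b c : Fin 2, ∃ l, dg 0 l = a ∧ dg 1 l = b ∧ dg 2 l = c := by decide
  have hinj : ∀ l m : Fin 8, dg 0 l = dg 0 m → dg 1 l = dg 1 m → dg 2 l = dg 2 m → l = m := by
    decide
  choose ind hi0 hi1 hi2 using hdg
  have hind : ∀ l, ind (dg 0 l) (dg 1 l) (dg 2 l) = l := by
    intro l
    apply hinj
    · exact hi0 _ _ _
    · exact hi1 _ _ _
    · exact hi2 _ _ _
  obtain ⟨m, hm⟩ := Function.ne_iff.1 hu
  simp only [Pi.zero_apply] at hm
  set a := dg 0 m with ha
  set b := dg 1 m with hb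
  set c := dg 2 m with hc
  have hmi : m = ind a b c := (hind m).symm
  refine ⟨fun i => u (ind i b c), fun j => u (ind a j c), fun k => u (ind a b k) / u m ^ 2,
    ?_, ?_, ?_, ?_⟩
  · refine Function.ne_iff.2 ⟨a, ?_⟩
    show u (ind a b c) ≠ 0
    rw [← hmi]; exact hm
  · refine Function.ne_iff.2 ⟨b, ?_⟩
    show u (ind a b c) ≠ 0
    rw [← hmi]; exact hm
  · refine Function.ne_iff.2 ⟨c, ?_⟩
    show u (ind a b c) / u m ^ 2 ≠ 0
    rw [← hmi]; exact div_ne_zero hm (pow_ne_zero _ hm)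
  · funext l
    rw [← segp_one]
    show u l = u (ind (dg 0 l) b c) * u (ind a (dg 1 l) c) * (u (ind a b (dg 2 l)) / u m ^ 2)
    -- swap digit 0, then digit 1
    have e1 : u l * u m = u (ind a (dg 1 l) (dg 2 l)) * u (ind (dg 0 l) b c) := by
      apply hsw 0
      · rw [hi0]
      · rw [hi0]
      · intro j hj
        fin_cases j
        · exact absurd rfl hj
        · exact ⟨hi1 _ _ _, hi1 _ _ _⟩
        · exact ⟨hi2 _ _ _, hi2 _ _ _⟩
    have e2 : u (ind a (dg 1 l) (dg 2 l)) * u m = u (ind a b (dg 2 l)) * u (ind a (dg 1 l) c) := by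
      apply hsw 1
      · rw [hi1]
      · rw [hi1, hi1]
      · intro j hj
        fin_cases j
        · exact ⟨(hi0 _ _ _).trans (hi0 _ _ _).symm, hi0 _ _ _⟩
        · exact absurd rfl hj
        · exact ⟨(hi2 _ _ _).trans (hi2 _ _ _).symm, hi2 _ _ _⟩
    field_simp
    linear_combination u m * e1 + u (ind (dg 0 l) b c) * e2

end Poly

end Pool.Agent.K3M
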