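import Mathlib
import Pool.Agent.K3M.Basic

/-!
A height inequality for three quadratic forms without common zeros on the Segre quadric.
-/

namespace Pool.Agent.K3M

open MvPolynomial Topology Pool.Agent.MazurC Pool.Agent.MazurT Pool.Agent.MazurQ
open Height

/-- HT1. -/
theorem null_rel {K : Type} [Field K] [NumberField K] (p : Fin 3 → MvPolynomial (Fin 4) K)
    (hp : ∀ j, (p j).IsHomogeneous 2)
    (h : ∀ w : Fin 4 → AlgebraicClosure K, w 0 * w 3 = w 1 * w 2 →
      (∀ j, eval₂ (ac K) w (p j) = 0) → w = 0) :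
    ∃ C : ℝ, ∀ w : Fin 4 → K, w 0 * w 3 = w 1 * w 2 →
      C + 2 * logHeight w ≤ logHeight (fun j => eval w (p j)) := by
  have hQ : (Q0 K).IsHomogeneous 2 :=
    ((isHomogeneous_X K 0).mul (isHomogeneous_X K 3)).sub
      ((isHomogeneous_X K 1).mul (isHomogeneous_X K 2))
  set P : Ideal (MvPolynomial (Fin 4) K) := Ideal.span (Set.range p) ⊔ Ideal.span {Q0 K} with hP
  have hmem : ∀ k : Fin 4, ∃ n : ℕ, (X k : MvPolynomial (Fin 4) K) ^ n ∈ P := by
    intro k
    have h1 : (X k : MvPolynomial (Fin 4) K) ∈ P.radical := by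
      rw [← MvPolynomial.vanishingIdeal_zeroLocus_eq_radical (K := AlgebraicClosure K),
        mem_vanishingIdeal_iff]
      intro x hx
      rw [mem_zeroLocus_iff] at hx
      have hx0 : x = 0 := by
        apply h
        · have h2 := hx (Q0 K) (Ideal.mem_sup_right (Ideal.subset_span rfl))
          rw [Q0, map_sub, map_mul, map_mul, aeval_X, aeval_X, aeval_X, aeval_X] at h2
          exact sub_eq_zero.1 h2
        · intro j
          exact hx (p j) (Ideal.mem_sup_left (Ideal.subset_span ⟨j, rfl⟩))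
      rw [aeval_X, hx0, Pi.zero_apply]
    exact h1
  choose n hn using hmem
  obtain ⟨M, hM⟩ : ∃ M : ℕ, ∀ k : Fin 4, (X k : MvPolynomial (Fin 4) K) ^ (M + 2) ∈ P := by
    refine ⟨∑ k, n k, fun k => ?_⟩
    have h1 : n k ≤ ∑ k, n k := Finset.single_le_sum (fun _ _ => Nat.zero_le _) (Finset.mem_univ k)
    obtain ⟨c, hc⟩ : ∃ c, (∑ k, n k) + 2 = n k + c := ⟨(∑ k, n k) + 2 - n k, by omega⟩
    rw [hc, pow_add]
    exact P.mul_mem_right _ (hn k)
  have hrel : ∀ k : Fin 4, ∃ (q : Fin 3 → MvPolynomial (Fin 4) K) (b : MvPolynomial (Fin 4) K),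
      (∀ j, (q j).IsHomogeneous M) ∧ (X k : MvPolynomial (Fin 4) K) ^ (M + 2) =
        ∑ j, q j * p j + b * Q0 K := by
    intro k
    obtain ⟨u, hu, v, hv, huv⟩ := Submodule.mem_sup.1 (hM k)
    obtain ⟨c, hc⟩ := (Ideal.mem_span_range_iff_exists_fun).1 hu
    obtain ⟨b, hb⟩ := Ideal.mem_span_singleton'.1 hv
    refine ⟨fun j => homogeneousComponent M (c j), homogeneousComponent M b,
      fun j => homogeneousComponent_isHomogeneous _ _, ?_⟩
    have h1 : ((X k : MvPolynomial (Fin 4) K) ^ (M + 2)).IsHomogeneous (M + 2) := by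
      have := (isHomogeneous_X K k).pow (M + 2)
      rwa [one_mul] at this
    have h2 := hc_self h1
    rw [← huv, ← hc, ← hb, map_add, map_sum] at h2
    rw [← huv, ← hc, ← hb, ← h2]
    congr 1
    · refine Finset.sum_congr rfl (fun j _ => ?_)
      rw [hc_mul_hom _ (hp j), if_pos (by omega), Nat.add_sub_cancel]
    · rw [hc_mul_hom _ hQ, if_pos (by omega), Nat.add_sub_cancel]
  choose q b hq hqb using hrel
  obtain ⟨C, hC⟩ := logHeight_eval_ge' (K := K) (N := 2) (M := M)
    (q := fun a : Fin 4 × Fin 3 => q a.1 a.2) (fun a => hq a.1 a.2)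
  refine ⟨C, fun w hw => ?_⟩
  have h3 := hC p (x := w) (by
    intro k
    have h4 := congrArg (eval w) (hqb k)
    rw [map_pow, eval_X, map_add, map_sum, map_mul, Q0, map_sub, map_mul, map_mul, eval_X, eval_X,
      eval_X, eval_X, hw, sub_self, mul_zero, add_zero] at h4
    rw [h4]
    refine Finset.sum_congr rfl (fun j _ => ?_)
    rw [map_mul])
  simpa using h3

end Pool.Agent.K3M
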