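import Mathlib
import Pool.Agent.K3M.Basic
import Pool.Agent.K3M.HT1

/-!
Surfaces of tridegree (2,2,2) in a product of three projective lines: the height inequality.
-/

namespace Pool.Agent.K3M

open MvPolynomial Topology Pool.Agent.MazurC Pool.Agent.MazurT Pool.Agent.MazurQ
open Height

/-- Restriction of a polynomial in eight variables to the tensors with first factor `v`. -/
noncomputable def ht2P (π : Equiv.Perm (Fin 3)) {K : Type} [Field K] (v : Fin 2 → K)
    (G : MvPolynomial (Fin 8) K) : MvPolynomial (Fin 4) K :=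
  aeval (fun l => C (v (dg (π 0) l)) * X (ix (dg (π 1) l) (dg (π 2) l))) G

theorem ht2P_hom (π : Equiv.Perm (Fin 3)) {K : Type} [Field K] (v : Fin 2 → K)
    {G : MvPolynomial (Fin 8) K} {d : ℕ} (hG : G.IsHomogeneous d) :
    (ht2P π v G).IsHomogeneous d := by
  have h := hG.aeval (fun l => (C (v (dg (π 0) l)) * X (ix (dg (π 1) l) (dg (π 2) l)) :
    MvPolynomial (Fin 4) K)) (n := 1) (fun l => by
      have := (isHomogeneous_C (Fin 4) (v (dg (π 0) l))).mul
        (isHomogeneous_X K (ix (dg (π 1) l) (dg (π 2) l)))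
      simpa using this)
  rwa [one_mul] at h

theorem ht2P_eval (π : Equiv.Perm (Fin 3)) {K : Type} [Field K] {S : Type*} [CommRing S]
    (φ : K →+* S) (v : Fin 2 → K) (G : MvPolynomial (Fin 8) K) (y z : Fin 2 → S) :
    eval₂ φ (tw y z) (ht2P π v G) = eval₂ φ (segp π (fun i => φ (v i)) y z) G := by
  rw [ht2P, ← coe_eval₂Hom, ← coe_eval₂Hom, aeval_def, ← coe_eval₂Hom, ← RingHom.comp_apply]
  congr 1
  apply ringHom_ext
  · intro r; simp [algebraMap_eq]
  · intro l
    simp only [RingHom.comp_apply, coe_eval₂Hom, eval₂_X, map_mul, eval₂_C, segp]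
    rw [tw_ix]
    ring

/-- Expansion along a line of the first ruling. -/
theorem ht2_expand {K : Type} [Field K] [CharZero K] {G : MvPolynomial (Fin 8) K}
    (hG : G.IsHomogeneous 2) (π : Equiv.Perm (Fin 3)) {S : Type*} [CommRing S] (φ : K →+* S)
    (u y z : Fin 2 → S) :
    eval₂ φ (segp π u y z) G =
      eval₂ φ (segp π ![1, 0] y z) G * u 0 ^ 2 +
      (eval₂ φ (segp π ![1, 1] y z) G - eval₂ φ (segp π ![1, 0] y z) G
        - eval₂ φ (segp π ![0, 1] y z) G) * (u 0 * u 1) +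
      eval₂ φ (segp π ![0, 1] y z) G * u 1 ^ 2 := by
  obtain ⟨q, hq, rfl⟩ := exists_qf G hG
  have h1 : ∀ w : Fin 2 → S, segp π w y z =
      w 0 • segp π ![1, 0] y z + w 1 • segp π ![0, 1] y z := by
    intro w
    funext l
    simp only [segp, Pi.add_apply, Pi.smul_apply, smul_eq_mul]
    have h2 : ∀ a : Fin 2, w a = w 0 * (![1, 0] : Fin 2 → S) a +
        w 1 * (![0, 1] : Fin 2 → S) a := by
      intro a
      fin_cases a <;> simp
    conv_lhs => rw [h2 (dg (π 0) l)]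
    ring
  have hs : ∀ i j, φ (q i j) = φ (q j i) := fun i j => by rw [hq]
  have h3 : ∀ w : Fin 2 → S, eval₂ φ (segp π w y z) (qf q) =
      w 0 ^ 2 * Bq (fun i j => φ (q i j)) (segp π ![1, 0] y z) (segp π ![1, 0] y z) +
      2 * w 0 * w 1 * Bq (fun i j => φ (q i j)) (segp π ![1, 0] y z) (segp π ![0, 1] y z) +
      w 1 ^ 2 * Bq (fun i j => φ (q i j)) (segp π ![0, 1] y z) (segp π ![0, 1] y z) := by
    intro w
    rw [eval₂_qf, h1 w, Bq_comb hs]
  rw [h3 u, h3 ![1, 0], h3 ![1, 1], h3 ![0, 1]]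
  simp only [Matrix.cons_val_zero, Matrix.cons_val_one]
  ring

/-- The three coefficient forms. -/
noncomputable def ht2p (π : Equiv.Perm (Fin 3)) {K : Type} [Field K]
    (G : MvPolynomial (Fin 8) K) : Fin 3 → MvPolynomial (Fin 4) K :=
  ![ht2P π ![1, 0] G, ht2P π ![1, 1] G - ht2P π ![1, 0] G - ht2P π ![0, 1] G, ht2P π ![0, 1] G]

theorem ht2p_hom (π : Equiv.Perm (Fin 3)) {K : Type} [Field K]
    {G : MvPolynomial (Fin 8) K} (hG : G.IsHomogeneous 2) (j : Fin 3) :
    (ht2p π G j).IsHomogeneous 2 := by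
  fin_cases j
  · exact ht2P_hom π _ hG
  · exact ((ht2P_hom π _ hG).sub (ht2P_hom π _ hG)).sub (ht2P_hom π _ hG)
  · exact ht2P_hom π _ hG

theorem ht2_vec {S : Type*} [CommRing S] {K : Type} [Field K] (φ : K →+* S) (a b : K) :
    (fun i => φ ((![a, b] : Fin 2 → K) i)) = ![φ a, φ b] := by
  funext i
  fin_cases i <;> simp

theorem ht2p_eval {K : Type} [Field K] [CharZero K] {G : MvPolynomial (Fin 8) K}
    (hG : G.IsHomogeneous 2) (π : Equiv.Perm (Fin 3)) {S : Type*} [CommRing S] (φ : K →+* S)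
    (u y z : Fin 2 → S) :
    eval₂ φ (segp π u y z) G = eval₂ φ (tw y z) (ht2p π G 0) * u 0 ^ 2 +
      eval₂ φ (tw y z) (ht2p π G 1) * (u 0 * u 1) + eval₂ φ (tw y z) (ht2p π G 2) * u 1 ^ 2 := by
  have h0 : eval₂ φ (tw y z) (ht2P π ![1, 0] G) = eval₂ φ (segp π ![1, 0] y z) G := by
    rw [ht2P_eval, ht2_vec, map_one, map_zero]
  have h1 : eval₂ φ (tw y z) (ht2P π ![1, 1] G) = eval₂ φ (segp π ![1, 1] y z) G := by
    rw [ht2P_eval, ht2_vec, map_one]
  have h2 : eval₂ φ (tw y z) (ht2P π ![0, 1] G) = eval₂ φ (segp π ![0, 1] y z) G := by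
    rw [ht2P_eval, ht2_vec, map_one, map_zero]
  have e0 : eval₂ φ (tw y z) (ht2p π G 0) = eval₂ φ (segp π ![1, 0] y z) G := h0
  have e2 : eval₂ φ (tw y z) (ht2p π G 2) = eval₂ φ (segp π ![0, 1] y z) G := h2
  have e1 : eval₂ φ (tw y z) (ht2p π G 1) = eval₂ φ (segp π ![1, 1] y z) G
      - eval₂ φ (segp π ![1, 0] y z) G - eval₂ φ (segp π ![0, 1] y z) G := by
    have : ht2p π G 1 = ht2P π ![1, 1] G - ht2P π ![1, 0] G - ht2P π ![0, 1] G := rfl
    rw [this, ← coe_eval₂Hom, map_sub, map_sub, coe_eval₂Hom, h0, h1, h2]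
  rw [ht2_expand hG, e0, e1, e2]

theorem ht2_vecc {M : Type*} (v : Fin 2 → M) : ![v 0, v 1] = v := by
  funext i
  fin_cases i <;> rfl

theorem ht2_height_tw {K : Type} [Field K] [NumberField K] {y z : Fin 2 → K} (hy : y ≠ 0)
    (hz : z ≠ 0) : logHeight (tw y z) = logHeight y + logHeight z := by
  have hy' : ![y 0, y 1] ≠ 0 := by rwa [ht2_vecc]
  have hz' : ![z 0, z 1] ≠ 0 := by rwa [ht2_vecc]
  have h := mulHeight_mul_mulHeight hy' hz'
  rw [ht2_vecc, ht2_vecc] at h
  rw [logHeight_eq_log_mulHeight, logHeight_eq_log_mulHeight, logHeight_eq_log_mulHeight,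
    ← Real.log_mul (mulHeight_pos y).ne' (mulHeight_pos z).ne', h]
  rfl

/-- The height inequality for one permutation. -/
theorem ht2_one {K : Type} [Field K] [NumberField K] {G : MvPolynomial (Fin 8) K}
    (hG : G.IsHomogeneous 2) (h : NL G) (π : Equiv.Perm (Fin 3)) :
    ∃ c : ℝ, ∀ (x x' y z : Fin 2 → K) (e : K), x ≠ 0 → x' ≠ 0 → y ≠ 0 → z ≠ 0 →
    e ≠ 0 → (∀ u : Fin 2 → K, eval (segp π u y z) G = e * dt u x * dt u x') →
    2 * Height.logHeight y + 2 * Height.logHeight z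
      ≤ Height.logHeight x + Height.logHeight x' + c := by
  obtain ⟨C0, hC0⟩ := null_rel (ht2p π G) (ht2p_hom π hG) (by
    intro w hw h0
    by_contra hne
    obtain ⟨y, z, hy, hz, rfl⟩ := exists_tw hne hw
    obtain ⟨u, hu⟩ := h π y z hy hz
    apply hu
    rw [ht2p_eval hG, h0 0, h0 1, h0 2]
    ring)
  obtain ⟨C1, hC1⟩ := logHeight_sym2_le K
  refine ⟨C1 - C0, ?_⟩
  intro x x' y z e hx hx' hy hz he hu
  have h1 := hC0 (tw y z) (tw_Q0 y z)
  rw [ht2_height_tw hy hz] at h1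
  have h2 : (fun j => eval (tw y z) (ht2p π G j)) =
      e • ![x 1 * x' 1, -(x 1 * x' 0 + x 0 * x' 1), x 0 * x' 0] := by
    have k : ∀ u : Fin 2 → K, eval (tw y z) (ht2p π G 0) * u 0 ^ 2 +
      eval (tw y z) (ht2p π G 1) * (u 0 * u 1) + eval (tw y z) (ht2p π G 2) * u 1 ^ 2 =
        e * dt u x * dt u x' := fun u =>
      (ht2p_eval hG π (RingHom.id K) u y z).symm.trans (hu u)
    have k0 := k ![1, 0]
    have k1 := k ![0, 1]
    have k2 := k ![1, 1]
    simp only [dt, Matrix.cons_val_zero, Matrix.cons_val_one] at k0 k1 k2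
    funext j
    fin_cases j
    · simp only [Pi.smul_apply, smul_eq_mul]
      show eval (tw y z) (ht2p π G 0) = e * (x 1 * x' 1)
      linear_combination k0
    · simp only [Pi.smul_apply, smul_eq_mul]
      show eval (tw y z) (ht2p π G 1) = e * (-(x 1 * x' 0 + x 0 * x' 1))
      linear_combination k2 - k0 - k1
    · simp only [Pi.smul_apply, smul_eq_mul]
      show eval (tw y z) (ht2p π G 2) = e * (x 0 * x' 0)
      linear_combination k1
  rw [h2, logHeight_smul_eq_logHeight _ he] at h1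
  have hsw : ∀ v : Fin 2 → K, logHeight ![v 1, -v 0] = logHeight v := by
    intro v
    rw [logHeight_swap, ← logHeight₁_div_eq_logHeight, neg_div, logHeight₁_neg,
      logHeight₁_div_eq_logHeight, ht2_vecc]
  have h3 := hC1 (x 1) (-x 0) (x' 1) (-x' 0)
  rw [hsw, hsw] at h3
  have h4 : ![x 1 * x' 1, x 1 * -x' 0 + -x 0 * x' 1, -x 0 * -x' 0] =
      ![x 1 * x' 1, -(x 1 * x' 0 + x 0 * x' 1), x 0 * x' 0] := by
    congr 1
    congr 1
    · ring
    · congr 1
      ring
  rw [h4] at h3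
  linarith

/-- HT2. -/
theorem exists_HI {K : Type} [Field K] [NumberField K] {G : MvPolynomial (Fin 8) K}
    (hG : G.IsHomogeneous 2) (h : NL G) : ∃ c : ℝ, HI G c := by
  choose c hc using ht2_one hG h
  refine ⟨∑ π : Equiv.Perm (Fin 3), |c π|, ?_⟩
  intro π x x' y z e hx hx' hy hz he hu
  have h1 := hc π x x' y z e hx hx' hy hz he hu
  have h2 : c π ≤ ∑ π : Equiv.Perm (Fin 3), |c π| :=
    (le_abs_self _).trans (Finset.single_le_sum (f := fun π => |c π|)
      (fun i _ => abs_nonneg _) (Finset.mem_univ π))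
  linarith

end Pool.Agent.K3M
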