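import Mathlib
import Pool.Agent.K3M.Basic

/-!
Surfaces of tridegree (2,2,2) in a product of three projective lines: the second root.
-/

namespace Pool.Agent.K3M

open MvPolynomial Topology Pool.Agent.MazurC Pool.Agent.MazurT Pool.Agent.MazurQ

/-- The restriction of a quadratic form to a line of a ruling, over every extension. -/
theorem rt_expand {K : Type} [Field K] [CharZero K] {G : MvPolynomial (Fin 8) K}
    (hG : G.IsHomogeneous 2) (π : Equiv.Perm (Fin 3)) (y z : Fin 2 → K) :
    ∃ A B C : K, ∀ (S : Type) [CommRing S] (φ : K →+* S) (u : Fin 2 → S),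
      eval₂ φ (segp π u (fun i => φ (y i)) (fun i => φ (z i))) G =
        φ A * u 0 ^ 2 + φ B * (u 0 * u 1) + φ C * u 1 ^ 2 := by
  obtain ⟨q, hq, rfl⟩ := exists_qf G hG
  refine ⟨Bq q (segp π ![1, 0] y z) (segp π ![1, 0] y z),
    2 * Bq q (segp π ![1, 0] y z) (segp π ![0, 1] y z),
    Bq q (segp π ![0, 1] y z) (segp π ![0, 1] y z), ?_⟩
  intro S _ φ u
  have hs : ∀ v : Fin 2 → K, (fun l => φ (segp π v y z l)) =
      segp π (fun i => φ (v i)) (fun i => φ (y i)) (fun i => φ (z i)) := fun v =>
    (segp_map φ π v y z).symm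
  have h1 : segp π u (fun i => φ (y i)) (fun i => φ (z i)) =
      u 0 • (fun l => φ (segp π ![1, 0] y z l)) + u 1 • (fun l => φ (segp π ![0, 1] y z l)) := by
    rw [hs, hs]
    funext l
    simp only [segp, Pi.add_apply, Pi.smul_apply, smul_eq_mul]
    have h2 : ∀ a : Fin 2, u a = u 0 * φ ((![1, 0] : Fin 2 → K) a) +
        u 1 * φ ((![0, 1] : Fin 2 → K) a) := by
      intro a
      fin_cases a <;> simp
    conv_lhs => rw [h2 (dg (π 0) l)]
    ring
  rw [eval₂_qf, h1, Bq_comb (fun i j => by rw [hq]), map_mul, map_Bq, map_Bq, map_Bq, map_ofNat]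
  ring

/-- RT. -/
theorem second_root {K : Type} [Field K] [CharZero K] {G : MvPolynomial (Fin 8) K}
    (hG : G.IsHomogeneous 2) (hNL : NL G) (π : Equiv.Perm (Fin 3)) {x y z : Fin 2 → K}
    (hx : x ≠ 0) (hy : y ≠ 0) (hz : z ≠ 0) (hP : eval (segp π x y z) G = 0) :
    ∃ (x' : Fin 2 → K) (e : K), x' ≠ 0 ∧ e ≠ 0 ∧
      ∀ u : Fin 2 → K, eval (segp π u y z) G = e * dt u x * dt u x' := by
  obtain ⟨A, B, C, hABC⟩ := rt_expand hG π y z
  have hK : ∀ u : Fin 2 → K, eval (segp π u y z) G =
      A * u 0 ^ 2 + B * (u 0 * u 1) + C * u 1 ^ 2 := fun u => hABC K (RingHom.id K) u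
  have hne : ¬ (A = 0 ∧ B = 0 ∧ C = 0) := by
    rintro ⟨rfl, rfl, rfl⟩
    have hy' : (fun i => ac K (y i)) ≠ 0 := by
      obtain ⟨a, ha⟩ := exists_ne hy
      refine Function.ne_iff.2 ⟨a, ?_⟩
      simpa using ha
    have hz' : (fun i => ac K (z i)) ≠ 0 := by
      obtain ⟨a, ha⟩ := exists_ne hz
      refine Function.ne_iff.2 ⟨a, ?_⟩
      simpa using ha
    obtain ⟨u, hu⟩ := hNL π _ _ hy' hz'
    apply hu
    rw [hABC (AlgebraicClosure K) (ac K) u]
    simp
  rw [hK] at hP
  by_cases h1 : x 1 = 0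
  · have h0 : x 0 ≠ 0 := by
      intro h0
      apply hx
      funext l
      fin_cases l
      · exact h0
      · exact h1
    have hA : A = 0 := by
      rw [h1] at hP
      have : A * x 0 ^ 2 = 0 := by linear_combination hP
      exact (mul_eq_zero.1 this).resolve_right (pow_ne_zero _ h0)
    refine ⟨![C / x 0, -B / x 0], 1, ?_, one_ne_zero, ?_⟩
    · intro h2
      apply hne
      have h3 : C / x 0 = 0 := by simpa using congrFun h2 0
      have h4 : -B / x 0 = 0 := by simpa using congrFun h2 1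
      refine ⟨hA, ?_, ?_⟩
      · rcases div_eq_zero_iff.1 h4 with h5 | h5
        · exact neg_eq_zero.1 h5
        · exact absurd h5 h0
      · exact (div_eq_zero_iff.1 h3).resolve_right h0
    · intro u
      rw [hK, hA]
      simp only [dt, Matrix.cons_val_zero, Matrix.cons_val_one, h1]
      field_simp
      ring
  · refine ⟨![-(B + x 0 * (A / x 1)) / x 1, A / x 1], 1, ?_, one_ne_zero, ?_⟩
    · intro h2
      apply hne
      have h3 : -(B + x 0 * (A / x 1)) / x 1 = 0 := by simpa using congrFun h2 0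
      have h4 : A / x 1 = 0 := by simpa using congrFun h2 1
      have hA : A = 0 := (div_eq_zero_iff.1 h4).resolve_right h1
      have hB : B = 0 := by
        have h5 := (div_eq_zero_iff.1 h3).resolve_right h1
        rw [h4] at h5
        linear_combination -h5
      refine ⟨hA, hB, ?_⟩
      rw [hA, hB] at hP
      have : C * x 1 ^ 2 = 0 := by linear_combination hP
      exact (mul_eq_zero.1 this).resolve_right (pow_ne_zero _ h1)
    · intro u
      rw [hK]
      simp only [dt, Matrix.cons_val_zero, Matrix.cons_val_one]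
      field_simp
      linear_combination (u 1 ^ 2) * hP

end Pool.Agent.K3M
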