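import Mathlib
import Pool.Agent.K3M.Basic
import Pool.Agent.K3M.RT

/-!
GR: growth of heights along the chain of points in a fibre.
-/

namespace Pool.Agent.K3M

open MvPolynomial Height

section GR

variable {K : Type} [Field K] [NumberField K] {G : MvPolynomial (Fin 8) K}

theorem dt_self_gr {R : Type*} [CommRing R] (x : Fin 2 → R) : dt x x = 0 := by
  simp [dt, mul_comm]

/-- One step in the `x`-direction. -/
theorem step_x (hG : G.IsHomogeneous 2) (hNL : NL G) {c : ℝ} (hc : HI G c)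
    (π : Equiv.Perm (Fin 3)) {x y z : Fin 2 → K} (hx : x ≠ 0) (hy : y ≠ 0) (hz : z ≠ 0)
    (hP : eval (segp π x y z) G = 0) :
    ∃ x' : Fin 2 → K, x' ≠ 0 ∧ eval (segp π x' y z) G = 0 ∧
      2 * logHeight y + 2 * logHeight z ≤ logHeight x + logHeight x' + c := by
  obtain ⟨x', e, hx', he, h⟩ := second_root hG hNL π hx hy hz hP
  refine ⟨x', hx', ?_, hc π x x' y z e hx hx' hy hz he h⟩
  rw [h x', dt_self_gr, mul_zero]

/-- One step in the `y`-direction. -/
theorem step_y (hG : G.IsHomogeneous 2) (hNL : NL G) {c : ℝ} (hc : HI G c)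
    (π : Equiv.Perm (Fin 3)) {x y z : Fin 2 → K} (hx : x ≠ 0) (hy : y ≠ 0) (hz : z ≠ 0)
    (hP : eval (segp π x y z) G = 0) :
    ∃ y' : Fin 2 → K, y' ≠ 0 ∧ eval (segp π x y' z) G = 0 ∧
      2 * logHeight x + 2 * logHeight z ≤ logHeight y + logHeight y' + c := by
  have hP' : eval (segp (π * Equiv.swap 0 1) y x z) G = 0 := by
    rw [segp_swap01]; exact hP
  obtain ⟨y', hy', h1, h2⟩ := step_x hG hNL hc (π * Equiv.swap 0 1) hy hx hz hP'
  refine ⟨y', hy', ?_, h2⟩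
  rw [segp_swap01] at h1
  exact h1

theorem growth_ind (hG : G.IsHomogeneous 2) (hNL : NL G) {c : ℝ} (hc : HI G c)
    (π : Equiv.Perm (Fin 3)) {x y z : Fin 2 → K} (hx : x ≠ 0) (hy : y ≠ 0) (hz : z ≠ 0)
    (hP : eval (segp π x y z) G = 0) (hgood : c < 2 * logHeight z) (n : ℕ) :
    ∃ x' y' : Fin 2 → K, x' ≠ 0 ∧ y' ≠ 0 ∧ eval (segp π x' y' z) G = 0 ∧
      (n : ℝ) * (2 * logHeight z - c) ≤ logHeight y' ∧
      logHeight y' + (2 * logHeight z - c) / 2 + n * (2 * logHeight z - c) ≤ logHeight x' := by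
  induction n with
  | zero =>
    obtain ⟨x', hx', hP', h⟩ := step_x hG hNL hc π hx hy hz hP
    have hy0 := logHeight_nonneg y
    rcases le_total (logHeight y + (2 * logHeight z - c) / 2) (logHeight x) with h1 | h1
    · refine ⟨x, y, hx, hy, hP, ?_, ?_⟩
      · simpa using hy0
      · simpa using h1
    · refine ⟨x', y, hx', hy, hP', ?_, ?_⟩
      · simpa using hy0
      · simp only [Nat.cast_zero, zero_mul, add_zero]
        linarith
  | succ n ih =>
    obtain ⟨x₁, y₁, hx₁, hy₁, hP₁, h1, h2⟩ := ih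
    obtain ⟨y₂, hy₂, hP₂, h3⟩ := step_y hG hNL hc π hx₁ hy₁ hz hP₁
    obtain ⟨x₂, hx₂, hP₃, h4⟩ := step_x hG hNL hc π hx₁ hy₂ hz hP₂
    have hn : (0 : ℝ) ≤ (n : ℝ) * (2 * logHeight z - c) :=
      mul_nonneg (Nat.cast_nonneg n) (by linarith)
    refine ⟨x₂, y₂, hx₂, hy₂, hP₃, ?_, ?_⟩
    · push_cast
      rw [add_mul, one_mul]
      linarith
    · push_cast
      rw [add_mul, one_mul]
      linarith

/-- GR. -/
theorem growth
    (hG : G.IsHomogeneous 2) (hNL : NL G) {c : ℝ} (hc : HI G c) (π : Equiv.Perm (Fin 3))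
    {x y z : Fin 2 → K} (hx : x ≠ 0) (hy : y ≠ 0) (hz : z ≠ 0)
    (hP : eval (segp π x y z) G = 0) (hgood : c < 2 * logHeight z) (B : ℝ) :
    ∃ x' y' : Fin 2 → K, x' ≠ 0 ∧ y' ≠ 0 ∧ eval (segp π x' y' z) G = 0 ∧
      B ≤ logHeight y' ∧ logHeight y' + B ≤ logHeight x' := by
  have hd : 0 < 2 * logHeight z - c := by linarith
  obtain ⟨n, hn⟩ := exists_nat_ge (B / (2 * logHeight z - c))
  have hB : B ≤ n * (2 * logHeight z - c) := by
    rwa [div_le_iff₀ hd] at hn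
  obtain ⟨x', y', hx', hy', hP', h1, h2⟩ := growth_ind hG hNL hc π hx hy hz hP hgood n
  exact ⟨x', y', hx', hy', hP', by linarith, by linarith⟩

end GR

end Pool.Agent.K3M
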