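import Mathlib
import Pool.Agent.K3M.Basic
import Pool.Agent.K3M.RT
import Pool.Agent.K3M.GR

/-!
Surfaces of tridegree (2,2,2): small facts on heights.
-/

namespace Pool.Agent.K3M

open MvPolynomial Topology Pool.Agent.MazurC Pool.Agent.MazurT Pool.Agent.MazurQ Height

theorem vec2_eta {K : Type} (x : Fin 2 → K) : ![x 0, x 1] = x := by
  funext i; fin_cases i <;> rfl

/-- NC. -/
theorem low_classes (K : Type) [Field K] [NumberField K] (c : ℝ) :
    ∃ T : Finset (Fin 2 → K), ∀ x : Fin 2 → K, x ≠ 0 → logHeight x ≤ c →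
      ∃ t ∈ T, t ≠ 0 ∧ dt x t = 0 := by
  classical
  have hfin : {x : K | logHeight₁ x ≤ c}.Finite := NumberField.finite_setOfPred_logHeight₁_le K c
  refine ⟨insert ![1, 0] (hfin.toFinset.image fun t => ![t, 1]), ?_⟩
  intro x hx hxc
  by_cases h1 : x 1 = 0
  · refine ⟨![1, 0], Finset.mem_insert_self _ _, ?_, ?_⟩
    · intro h; simpa using congrFun h 0
    · simp [dt, h1]
  · refine ⟨![x 0 / x 1, 1], Finset.mem_insert_of_mem (Finset.mem_image_of_mem _ ?_), ?_, ?_⟩
    · rw [Set.Finite.mem_toFinset]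
      show logHeight₁ (x 0 / x 1) ≤ c
      rw [logHeight₁_div_eq_logHeight, vec2_eta]
      exact hxc
    · intro h; simpa using congrFun h 1
    · simp [dt]
      field_simp
      ring

/-- NS. -/
theorem nonsing {K : Type} [Field K] [NumberField K] {G : MvPolynomial (Fin 8) K}
    (hG : G.IsHomogeneous 2) (hNL : NL G) {c : ℝ} (hc : HI G c) (π : Equiv.Perm (Fin 3))
    {x y z : Fin 2 → K} (hx : x ≠ 0) (hy : y ≠ 0) (hz : z ≠ 0)
    (hP : eval (segp π x y z) G = 0) (hgood : c < 2 * logHeight z) :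
    ¬ ((∃ e : K, ∀ u : Fin 2 → K, eval (segp π u y z) G = e * dt u x ^ 2) ∧
      (∃ e : K, ∀ u : Fin 2 → K, eval (segp π x u z) G = e * dt u y ^ 2)) := by
  rintro ⟨⟨e, h1⟩, ⟨e', h2⟩⟩
  have key : ∀ (ρ : Equiv.Perm (Fin 3)) (a b : Fin 2 → K) (ε : K), a ≠ 0 → b ≠ 0 →
      eval (segp ρ a b z) G = 0 → (∀ u : Fin 2 → K, eval (segp ρ u b z) G = ε * dt u a ^ 2) →
      2 * logHeight b + 2 * logHeight z ≤ 2 * logHeight a + c := by
    intro ρ a b ε ha hb hab hε
    obtain ⟨a', ε', ha', hε', h3⟩ := second_root hG hNL ρ ha hb hz hab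
    have hd : dt a' a = 0 := by
      by_contra hd
      have h4 := (hε a').symm.trans (h3 a')
      have h5 : dt a' a' = 0 := by simp [dt]; ring
      rw [h5, mul_zero] at h4
      have hε0 : ε = 0 := (mul_eq_zero.1 h4).resolve_right (pow_ne_zero _ hd)
      have h6 := (hε (a' + a)).symm.trans (h3 (a' + a))
      rw [hε0, zero_mul] at h6
      have h7 : dt (a' + a) a = dt a' a := by simp [dt]; ring
      have h8 : dt (a' + a) a' = -dt a' a := by simp [dt]; ring
      rw [h7, h8] at h6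
      exact (mul_ne_zero (mul_ne_zero hε' hd) (neg_ne_zero.2 hd)) h6.symm
    obtain ⟨r, hr, har⟩ := exists_smul_of_dt ha' ha hd
    have h9 := hc ρ a a' b z ε' ha ha' hb hz hε' h3
    rw [har, logHeight_smul_eq_logHeight _ hr] at h9
    linarith
  have h3 := key π x y e hx hy hP h1
  have h4 := key (π * Equiv.swap 0 1) y x e' hy hx (by rw [segp_swap01]; exact hP) (by
    intro u
    rw [segp_swap01]
    exact h2 u)
  linarith

/-- IC. -/
theorem infinite_classes {K : Type} [Field K] [NumberField K] {G : MvPolynomial (Fin 8) K}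
    (hG : G.IsHomogeneous 2) (hNL : NL G) {c : ℝ} (hc : HI G c) (π : Equiv.Perm (Fin 3))
    {x y z : Fin 2 → K} (hx : x ≠ 0) (hy : y ≠ 0) (hz : z ≠ 0)
    (hP : eval (segp π x y z) G = 0) (hgood : c < 2 * logHeight z) :
    {t : K | ∃ x' : Fin 2 → K, x' ≠ 0 ∧ eval (segp π x' ![t, 1] z) G = 0}.Infinite := by
  intro hfin
  obtain ⟨B0, hB0⟩ := (hfin.image fun t => logHeight₁ t).bddAbove
  obtain ⟨x', y', hx', hy', hP', hB, _⟩ := growth hG hNL hc π hx hy hz hP hgood
    (max B0 (logHeight (![1, 0] : Fin 2 → K)) + 1)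
  by_cases h1 : y' 1 = 0
  · have h0 : y' 0 ≠ 0 := by
      intro h0
      apply hy'
      funext i; fin_cases i
      · exact h0
      · exact h1
    have h2 : y' = y' 0 • (![1, 0] : Fin 2 → K) := by
      funext i; fin_cases i
      · simp
      · simp [h1]
    have h3 : logHeight y' = logHeight (![1, 0] : Fin 2 → K) := by
      rw [h2, logHeight_smul_eq_logHeight _ h0]
    have h4 := le_max_right B0 (logHeight (![1, 0] : Fin 2 → K))
    linarith
  · have h2 : y' = y' 1 • (![y' 0 / y' 1, 1] : Fin 2 → K) := by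
      funext i; fin_cases i
      · simp only [Fin.zero_eta, Pi.smul_apply, smul_eq_mul, Matrix.cons_val_zero]
        field_simp
      · simp
    have h3 : eval (segp π x' ![y' 0 / y' 1, 1] z) G = 0 := by
      have h4 : segp π x' y' z = y' 1 • segp π x' ![y' 0 / y' 1, 1] z := by
        have h5 := segp_smul π 1 (y' 1) 1 x' ![y' 0 / y' 1, 1] z
        rw [one_smul, one_smul, ← h2, one_mul, mul_one] at h5
        exact h5
      rw [h4, eval_smul_hom hG] at hP'
      exact (mul_eq_zero.1 hP').resolve_left (pow_ne_zero _ h1)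
    have h4 : logHeight₁ (y' 0 / y' 1) ≤ B0 := hB0 ⟨_, ⟨x', hx', h3⟩, rfl⟩
    rw [logHeight₁_div_eq_logHeight, vec2_eta] at h4
    have h5 := le_max_left B0 (logHeight (![1, 0] : Fin 2 → K))
    linarith

end Pool.Agent.K3M
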