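import Mathlib

/-!
Divisibility by a quadratic polynomial in a family.
-/

namespace Pool.Agent.K3M

open Polynomial in
/-- Pseudo-division by a quadratic polynomial. -/
theorem pseudo_div {R : Type*} [CommRing R] (a b c : R) (p : R[X]) :
    ∃ (m : ℕ) (q : R[X]) (r1 r0 : R), C a ^ m * p =
      q * (C a * X ^ 2 + C b * X + C c) + C r1 * X + C r0 := by
  induction p using Polynomial.induction_on with
  | C k => exact ⟨0, 0, 0, k, by simp⟩
  | add p p' hp hp' =>
    obtain ⟨m, q, r1, r0, h⟩ := hp
    obtain ⟨m', q', r1', r0', h'⟩ := hp'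
    refine ⟨m + m', C a ^ m' * q + C a ^ m * q', a ^ m' * r1 + a ^ m * r1',
      a ^ m' * r0 + a ^ m * r0', ?_⟩
    simp only [map_add, map_mul, map_pow]
    linear_combination C a ^ m' * h + C a ^ m * h'
  | monomial n k h =>
    obtain ⟨m, q, r1, r0, h⟩ := h
    refine ⟨m + 1, C a * q * X + C r1, a * r0 - r1 * b, -(r1 * c), ?_⟩
    simp only [map_sub, map_mul, map_neg]
    linear_combination C a * X * h

/-- DL. -/
theorem lemmaD {Ω : Type*} [Field Ω] {a b c : Polynomial Ω} {p : Polynomial (Polynomial Ω)}
    (ha : a.eval 0 ≠ 0)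
    (hinf : {s : Ω | (Polynomial.C a * Polynomial.X ^ 2 + Polynomial.C b * Polynomial.X +
      Polynomial.C c).map (Polynomial.evalRingHom s) ∣
        p.map (Polynomial.evalRingHom s)}.Infinite) :
    (Polynomial.C a * Polynomial.X ^ 2 + Polynomial.C b * Polynomial.X +
      Polynomial.C c).map (Polynomial.evalRingHom 0) ∣ p.map (Polynomial.evalRingHom 0) := by
  classical
  have ha0 : a ≠ 0 := by
    rintro rfl
    exact ha (by simp)
  obtain ⟨m, q, r1, r0, h⟩ := pseudo_div a b c p
  have hfin : {s : Ω | a.eval s = 0}.Finite := by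
    refine (a.roots.toFinset.finite_toSet).subset ?_
    intro s hs
    simp only [Finset.mem_coe, Multiset.mem_toFinset]
    exact (Polynomial.mem_roots ha0).2 hs
  have hinf' := hinf.sdiff hfin
  have key : ∀ s ∈ {s : Ω | (Polynomial.C a * Polynomial.X ^ 2 + Polynomial.C b * Polynomial.X +
      Polynomial.C c).map (Polynomial.evalRingHom s) ∣
        p.map (Polynomial.evalRingHom s)} \ {s : Ω | a.eval s = 0},
      r1.eval s = 0 ∧ r0.eval s = 0 := by
    rintro s ⟨hs, hs0⟩
    have hs0' : a.eval s ≠ 0 := hs0
    have h1 := congrArg (Polynomial.map (Polynomial.evalRingHom s)) h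
    rw [Polynomial.map_mul, Polynomial.map_add, Polynomial.map_add, Polynomial.map_mul] at h1
    have h2 : (Polynomial.C a * Polynomial.X ^ 2 + Polynomial.C b * Polynomial.X +
      Polynomial.C c).map (Polynomial.evalRingHom s) ∣
        Polynomial.C (r1.eval s) * Polynomial.X + Polynomial.C (r0.eval s) := by
      have h3 := dvd_mul_of_dvd_right hs ((Polynomial.C a ^ m).map (Polynomial.evalRingHom s))
      have h3' : (Polynomial.C a * Polynomial.X ^ 2 + Polynomial.C b * Polynomial.X +
          Polynomial.C c).map (Polynomial.evalRingHom s) ∣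
          q.map (Polynomial.evalRingHom s) * (Polynomial.C a * Polynomial.X ^ 2 +
            Polynomial.C b * Polynomial.X + Polynomial.C c).map (Polynomial.evalRingHom s) +
          ((Polynomial.C r1 * Polynomial.X).map (Polynomial.evalRingHom s) +
            (Polynomial.C r0).map (Polynomial.evalRingHom s)) := by
        rw [← add_assoc, ← h1]
        exact h3
      have h4 := (dvd_add_right (Dvd.intro_left _ rfl)).1 h3'
      simpa using h4
    have h5 : Polynomial.C (r1.eval s) * Polynomial.X + Polynomial.C (r0.eval s) = 0 := by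
      refine Polynomial.eq_zero_of_dvd_of_natDegree_lt h2 ?_
      have e1 : (Polynomial.C a * Polynomial.X ^ 2 + Polynomial.C b * Polynomial.X +
          Polynomial.C c).map (Polynomial.evalRingHom s) = Polynomial.C (a.eval s) *
            Polynomial.X ^ 2 + Polynomial.C (b.eval s) * Polynomial.X +
            Polynomial.C (c.eval s) := by
        simp
      rw [e1, Polynomial.natDegree_quadratic hs0']
      exact lt_of_le_of_lt Polynomial.natDegree_linear_le (by norm_num)
    constructor
    · have := congrArg (fun f => Polynomial.coeff f 1) h5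
      simpa using this
    · have := congrArg (fun f => Polynomial.coeff f 0) h5
      simpa using this
  have hr1 : r1 = 0 := Polynomial.eq_zero_of_infinite_isRoot r1
    (hinf'.mono fun s hs => (key s hs).1)
  have hr0 : r0 = 0 := Polynomial.eq_zero_of_infinite_isRoot r0
    (hinf'.mono fun s hs => (key s hs).2)
  rw [hr1, hr0, Polynomial.C_0] at h
  have h1 := congrArg (Polynomial.map (Polynomial.evalRingHom (0 : Ω))) h
  rw [zero_mul, add_zero, add_zero, Polynomial.map_mul,
    Polynomial.map_mul, Polynomial.map_pow, Polynomial.map_C, Polynomial.coe_evalRingHom] at h1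
  have hu : IsUnit (Polynomial.C (a.eval 0) ^ m) :=
    (Polynomial.isUnit_C.2 (isUnit_iff_ne_zero.2 ha)).pow m
  have h2 : (Polynomial.C a * Polynomial.X ^ 2 + Polynomial.C b * Polynomial.X +
      Polynomial.C c).map (Polynomial.evalRingHom 0) ∣
        Polynomial.C (a.eval 0) ^ m * p.map (Polynomial.evalRingHom 0) := by
    rw [h1]
    exact Dvd.intro_left _ rfl
  exact (hu.dvd_mul_left).1 h2

end Pool.Agent.K3M
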