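import Mathlib
import Pool.Agent.K3M.Basic
import Pool.Agent.K3M.DL

/-!
Surfaces of tridegree (2,2,2): a polynomial which vanishes on infinitely many fibres vanishes on
the surface.
-/

namespace Pool.Agent.K3M

open MvPolynomial Topology Pool.Agent.MazurC Pool.Agent.MazurT Pool.Agent.MazurQ

/-- Divisibility of values from membership in the ideal of a fibre. -/
theorem dvd_of_fib {K : Type} [Field K] {G g : MvPolynomial (Fin 8) K} (π : Equiv.Perm (Fin 3))
    {z : Fin 2 → K} (h : fib π z g ∈ Ideal.span {Q0 K, fib π z G}) {S : Type*} [CommRing S]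
    (ψ : K →+* S) (u v : Fin 2 → S) :
    eval₂ ψ (segp π u v (fun i => ψ (z i))) G ∣ eval₂ ψ (segp π u v (fun i => ψ (z i))) g := by
  obtain ⟨a, b, hab⟩ := Ideal.mem_span_pair.1 h
  refine ⟨eval₂ ψ (tw u v) b, ?_⟩
  rw [← embz_tw, ← eval₂_fib, ← eval₂_fib, ← hab, eval₂_add, eval₂_mul, eval₂_mul, eval₂_Q0,
    tw_Q0]
  ring

/-- Values of a quadratic form on a line. -/
theorem eval₂_line {K : Type} [Field K] [CharZero K] {n : ℕ} {G : MvPolynomial (Fin n) K}
    (hG : G.IsHomogeneous 2) {S : Type*} [CommRing S] (ψ : K →+* S) (P Q : Fin n → S) (t : S) :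
    eval₂ ψ (P + t • Q) G = eval₂ ψ Q G * t ^ 2 +
      (eval₂ ψ (P + Q) G - eval₂ ψ P G - eval₂ ψ Q G) * t + eval₂ ψ P G := by
  obtain ⟨q, hq, rfl⟩ := exists_qf G hG
  have hq' : ∀ i j, ψ (q i j) = ψ (q j i) := fun i j => by rw [hq i j]
  have h1 := Bq_comb (q := fun i j => ψ (q i j)) hq' 1 t P Q
  have h2 := Bq_comb (q := fun i j => ψ (q i j)) hq' 1 1 P Q
  rw [one_smul] at h1 h2
  rw [one_smul] at h2
  rw [eval₂_qf, eval₂_qf, eval₂_qf, eval₂_qf, h1, h2]
  ring

/-- Rescaling the last factor. -/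
theorem dvd_scale {K : Type} [Field K] {G g : MvPolynomial (Fin 8) K} (hG : G.IsHomogeneous 2)
    {d : ℕ} (hg : g.IsHomogeneous d) (π : Equiv.Perm (Fin 3)) {S : Type*} [CommRing S]
    (ψ : K →+* S) (u v z : Fin 2 → S) {r : S} (hr : IsUnit r)
    (h : eval₂ ψ (segp π u v z) G ∣ eval₂ ψ (segp π u v z) g) :
    eval₂ ψ (segp π u v (r • z)) G ∣ eval₂ ψ (segp π u v (r • z)) g := by
  have h1 : segp π u v (r • z) = r • segp π u v z := by
    have := segp_smul π 1 1 r u v z
    rwa [one_smul, one_smul, one_mul, one_mul] at this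
  rw [h1, MazurQ.eval₂_smul_hom ψ hG, MazurQ.eval₂_smul_hom ψ hg]
  exact ((hr.pow 2).mul_left_dvd).2 (h.mul_left _)

theorem exists_dt {Ω : Type*} [Field Ω] {z : Fin 2 → Ω} (hz : z ≠ 0) :
    ∃ e : Fin 2 → Ω, dt z e ≠ 0 := by
  obtain ⟨a, ha⟩ := exists_ne hz
  fin_cases a
  · exact ⟨![0, 1], by simpa [dt] using ha⟩
  · refine ⟨![1, 0], ?_⟩
    simp only [dt, Matrix.cons_val_zero, Matrix.cons_val_one, mul_zero, mul_one, zero_sub]
    exact neg_ne_zero.2 ha

/-- Two vectors parallel to the same nonzero vector are parallel. -/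
theorem dt_trans {Ω : Type*} [Field Ω] {u a b : Fin 2 → Ω} (hu : u ≠ 0) (ha : dt u a = 0)
    (hb : dt u b = 0) : dt a b = 0 := by
  obtain ⟨i, hi⟩ := exists_ne hu
  simp only [dt] at *
  have h : u i * (a 0 * b 1 - a 1 * b 0) = 0 := by
    fin_cases i
    · show u 0 * _ = 0
      linear_combination (-b 0) * ha + a 0 * hb
    · show u 1 * _ = 0
      linear_combination (-b 1) * ha + a 1 * hb
  exact (mul_eq_zero.1 h).resolve_left hi

/-- CL. -/
theorem closure_all {K : Type} [Field K] [CharZero K] {G : MvPolynomial (Fin 8) K}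
    (hG : G.IsHomogeneous 2) (hNL : NL G) {g : MvPolynomial (Fin 8) K} {d : ℕ}
    (hg : g.IsHomogeneous d) (π : Equiv.Perm (Fin 3))
    (hinf : ∀ T : Finset (Fin 2 → K), ∃ z : Fin 2 → K, z ≠ 0 ∧
      (∀ t ∈ T, t ≠ 0 → dt z t ≠ 0) ∧ fib π z g ∈ Ideal.span {Q0 K, fib π z G})
    {x y z : Fin 2 → AlgebraicClosure K} (hx : x ≠ 0) (hy : y ≠ 0) (hz : z ≠ 0)
    (hP : eval₂ (ac K) (segp π x y z) G = 0) : eval₂ (ac K) (segp π x y z) g = 0 := by
  classical
  obtain ⟨v, hv⟩ := hNL π y z hy hz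
  obtain ⟨e, he⟩ := exists_dt hz
  have he0 : e ≠ 0 := by
    rintro rfl
    exact he (by simp [dt])
  set φ : K →+* AlgebraicClosure K := ac K with hφ
  set ψ1 : K →+* Polynomial (AlgebraicClosure K) := Polynomial.C.comp φ with hψ1
  set ψ2 : K →+* Polynomial (Polynomial (AlgebraicClosure K)) := Polynomial.C.comp ψ1 with hψ2
  set P : Fin 8 → Polynomial (AlgebraicClosure K) :=
    segp π (fun i => Polynomial.C (x i)) (fun i => Polynomial.C (y i))
      (fun i => Polynomial.C (z i) + Polynomial.X * Polynomial.C (e i)) with hPdef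
  set Q : Fin 8 → Polynomial (AlgebraicClosure K) :=
    segp π (fun i => Polynomial.C (v i)) (fun i => Polynomial.C (y i))
      (fun i => Polynomial.C (z i) + Polynomial.X * Polynomial.C (e i)) with hQdef
  set w : Fin 8 → Polynomial (Polynomial (AlgebraicClosure K)) :=
    (fun l => Polynomial.C (P l)) + (Polynomial.X : Polynomial (Polynomial (AlgebraicClosure K))) •
      (fun l => Polynomial.C (Q l)) with hw
  -- the quadratic polynomial
  have hC : ∀ (R : Fin 8 → Polynomial (AlgebraicClosure K)) (p : MvPolynomial (Fin 8) K),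
      eval₂ ψ2 (fun l => Polynomial.C (R l)) p = Polynomial.C (eval₂ ψ1 R p) := by
    intro R p
    rw [MvPolynomial.eval₂_comp_left]
    rfl
  have hf : eval₂ ψ2 w G = Polynomial.C (eval₂ ψ1 Q G) * Polynomial.X ^ 2 +
      Polynomial.C (eval₂ ψ1 (P + Q) G - eval₂ ψ1 P G - eval₂ ψ1 Q G) * Polynomial.X +
      Polynomial.C (eval₂ ψ1 P G) := by
    rw [hw, eval₂_line hG, hC, hC]
    have h3 : ((fun l => Polynomial.C (P l)) + (fun l => Polynomial.C (Q l)) :
        Fin 8 → Polynomial (Polynomial (AlgebraicClosure K))) =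
        fun l => Polynomial.C ((P + Q) l) := by
      funext l
      simp
    rw [h3, hC, Polynomial.C_sub, Polynomial.C_sub]
  -- specialisation
  have hsp : ∀ (s : AlgebraicClosure K) (p : MvPolynomial (Fin 8) K),
      (eval₂ ψ2 w p).map (Polynomial.evalRingHom s) =
        eval₂ ψ1 (segp π (fun i => Polynomial.C (x i) + Polynomial.X * Polynomial.C (v i))
          (fun i => Polynomial.C (y i)) (fun i => Polynomial.C (z i + s * e i))) p := by
    intro s p
    rw [← Polynomial.coe_mapRingHom, MvPolynomial.eval₂_comp_left]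
    congr 1
    · ext k
      simp [hψ1, hψ2]
    · funext l
      simp only [hw, hPdef, hQdef, segp, Function.comp_apply, Pi.add_apply, Pi.smul_apply,
        smul_eq_mul, Polynomial.coe_mapRingHom, Polynomial.map_add, Polynomial.map_mul,
        Polynomial.map_C, Polynomial.map_X, map_mul, map_add, Polynomial.coe_evalRingHom,
        Polynomial.eval_C, Polynomial.eval_X]
      ring
  have hev : ∀ (s : AlgebraicClosure K) (p : MvPolynomial (Fin 8) K),
      Polynomial.eval s (eval₂ ψ1 Q p) =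
        eval₂ φ (segp π v y (fun i => z i + s * e i)) p := by
    intro s p
    rw [← Polynomial.coe_evalRingHom, MvPolynomial.eval₂_comp_left]
    congr 1
    · ext k
      simp [hψ1]
    · funext l
      simp [hQdef, segp, mul_comm s]
  have hev0 : ∀ (p : MvPolynomial (Fin 8) K),
      Polynomial.eval 0 ((eval₂ ψ2 w p).map (Polynomial.evalRingHom 0)) =
        eval₂ φ (segp π x y z) p := by
    intro p
    rw [hsp, ← Polynomial.coe_evalRingHom, MvPolynomial.eval₂_comp_left]
    congr 1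
    · ext k
      simp [hψ1]
    · funext l
      simp [segp]
  have ha : (eval₂ ψ1 Q G).eval 0 ≠ 0 := by
    rw [hev]
    simpa using hv
  -- infinitely many specialisations
  have hI : {s : AlgebraicClosure K | (Polynomial.C (eval₂ ψ1 Q G) * Polynomial.X ^ 2 +
      Polynomial.C (eval₂ ψ1 (P + Q) G - eval₂ ψ1 P G - eval₂ ψ1 Q G) * Polynomial.X +
      Polynomial.C (eval₂ ψ1 P G)).map (Polynomial.evalRingHom s) ∣
        (eval₂ ψ2 w g).map (Polynomial.evalRingHom s)}.Infinite := by
    rw [← hf]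
    intro hfin
    have hch : ∀ a : Fin 2 → AlgebraicClosure K, ∃ t : Fin 2 → K,
        (∃ t' : Fin 2 → K, t' ≠ 0 ∧ dt a (fun i => φ (t' i)) = 0) →
          t ≠ 0 ∧ dt a (fun i => φ (t i)) = 0 := by
      intro a
      by_cases h : ∃ t' : Fin 2 → K, t' ≠ 0 ∧ dt a (fun i => φ (t' i)) = 0
      · obtain ⟨t', h1, h2⟩ := h
        exact ⟨t', fun _ => ⟨h1, h2⟩⟩
      · exact ⟨0, fun h' => absurd h' h⟩
    choose τ hτ using hch
    obtain ⟨z1, hz1, hzT, hmem⟩ := hinf
      (insert (τ e) (hfin.toFinset.image fun s => τ (fun i => z i + s * e i)))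
    have hpar : ∀ a : Fin 2 → AlgebraicClosure K, a ≠ 0 → dt a (fun i => φ (z1 i)) = 0 →
        τ a ≠ 0 ∧ dt z1 (τ a) = 0 := by
      intro a ha0 ha1
      obtain ⟨h1, h2⟩ := hτ a ⟨z1, hz1, ha1⟩
      refine ⟨h1, ?_⟩
      have h3 := dt_trans ha0 ha1 h2
      have h4 : φ (dt z1 (τ a)) = 0 := by
        rw [← h3]
        simp [dt]
      exact (map_eq_zero φ).1 h4
    have hez : dt e (fun i => φ (z1 i)) ≠ 0 := by
      intro h0
      obtain ⟨h1, h2⟩ := hpar e he0 h0
      exact hzT _ (Finset.mem_insert_self _ _) h1 h2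
    set s0 : AlgebraicClosure K := -dt z (fun i => φ (z1 i)) / dt e (fun i => φ (z1 i)) with hs0
    have hs : dt (fun i => z i + s0 * e i) (fun i => φ (z1 i)) = 0 := by
      have h5 : dt (fun i => z i + s0 * e i) (fun i => φ (z1 i)) =
          dt z (fun i => φ (z1 i)) + s0 * dt e (fun i => φ (z1 i)) := by
        simp only [dt]; ring
      rw [h5, hs0, div_mul_cancel₀ _ hez]
      ring
    have hzs : (fun i => z i + s0 * e i) ≠ 0 := by
      intro h0
      apply he
      have e0 : z 0 + s0 * e 0 = 0 := congrFun h0 0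
      have e1 : z 1 + s0 * e 1 = 0 := congrFun h0 1
      rw [dt]
      linear_combination e 1 * e0 - e 0 * e1
    have hz1' : (fun i => φ (z1 i)) ≠ 0 := by
      intro h0
      apply hz1
      funext i
      exact (map_eq_zero φ).1 (congrFun h0 i)
    obtain ⟨r, hr, hreq⟩ := exists_smul_of_dt hzs hz1' hs
    have hmem0 : s0 ∈ hfin.toFinset := by
      rw [Set.Finite.mem_toFinset, Set.mem_ofPred_eq, hsp, hsp]
      have h6 : (fun i => Polynomial.C (z i + s0 * e i)) =
          (Polynomial.C r) • (fun i => ψ1 (z1 i)) := by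
        funext i
        have := congrFun hreq i
        simp only [Pi.smul_apply, smul_eq_mul] at this
        rw [this]
        simp [hψ1]
      rw [h6]
      exact dvd_scale hG hg π ψ1 _ _ _ (Polynomial.isUnit_C.2 hr.isUnit)
        (dvd_of_fib π hmem ψ1 _ _)
    obtain ⟨h7, h8⟩ := hpar _ hzs hs
    exact hzT _ (Finset.mem_insert_of_mem (Finset.mem_image_of_mem _ hmem0)) h7 h8
  have hD := lemmaD ha hI
  rw [← hf] at hD
  obtain ⟨q, hq⟩ := hD
  have h9 := congrArg (Polynomial.eval 0) hq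
  rw [Polynomial.eval_mul, hev0, hev0, hP, zero_mul] at h9
  exact h9

end Pool.Agent.K3M
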