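import Mathlib

/-!
An irreducible polynomial in two variables divides every polynomial which vanishes on infinitely
many of its zeros.
-/

namespace Pool.Agent.K3M

/-- C1. -/
theorem dvd_of_infinite {K : Type} [Field K] {g p : Polynomial (Polynomial K)}
    (hg : Irreducible g)
    (hinf : {t : K | ∃ s : K, Polynomial.evalEval t s g = 0 ∧
      Polynomial.evalEval t s p = 0}.Infinite) : g ∣ p := by
  classical
  by_cases hd : g.natDegree = 0
  · exfalso
    obtain ⟨g0, rfl⟩ : ∃ g0, g = Polynomial.C g0 :=
      ⟨g.coeff 0, Polynomial.eq_C_of_natDegree_eq_zero hd⟩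
    have h0 : g0 = 0 := by
      refine Polynomial.eq_zero_of_infinite_isRoot g0 (hinf.mono ?_)
      rintro t ⟨s, hs, _⟩
      rw [Polynomial.evalEval_C] at hs
      exact hs
    rw [h0, map_zero] at hg
    exact not_irreducible_zero hg
  · have hprim : g.IsPrimitive := hg.isPrimitive hd
    let F := FractionRing (Polynomial K)
    have hinj : Function.Injective (algebraMap (Polynomial K) F) :=
      IsFractionRing.injective (Polynomial K) F
    have hirr : Irreducible (g.map (algebraMap (Polynomial K) F)) :=
      (hprim.irreducible_iff_irreducible_map_fraction_map (K := F)).1 hg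
    rw [Polynomial.IsPrimitive.dvd_iff_fraction_map_dvd_fraction_map F hprim]
    by_contra hdvd
    obtain ⟨a, b, hab⟩ := (hirr.coprime_iff_not_dvd).2 hdvd
    obtain ⟨r1, hr1, hA⟩ := IsLocalization.integerNormalization_spec
      (nonZeroDivisors (Polynomial K)) a
    obtain ⟨r2, hr2, hB⟩ := IsLocalization.integerNormalization_spec
      (nonZeroDivisors (Polynomial K)) b
    set A := IsLocalization.integerNormalization (nonZeroDivisors (Polynomial K)) a
    set B := IsLocalization.integerNormalization (nonZeroDivisors (Polynomial K)) b
    have key : Polynomial.C r2 * A * g + Polynomial.C r1 * B * p = Polynomial.C (r1 * r2) := by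
      apply Polynomial.map_injective _ hinj
      rw [Polynomial.map_add, Polynomial.map_mul, Polynomial.map_mul, Polynomial.map_mul,
        Polynomial.map_mul, hA, hB, Polynomial.map_C, Polynomial.map_C, Polynomial.map_C,
        Algebra.smul_def, Algebra.smul_def, map_mul, map_mul,
        Polynomial.algebraMap_apply, Polynomial.algebraMap_apply]
      linear_combination (Polynomial.C (algebraMap (Polynomial K) F r1) *
        Polynomial.C (algebraMap (Polynomial K) F r2)) * hab
    have h0 : r1 * r2 = 0 := by
      refine Polynomial.eq_zero_of_infinite_isRoot _ (hinf.mono ?_)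
      rintro t ⟨s, hs, hs'⟩
      have h := congrArg (Polynomial.evalEval t s) key
      simp only [Polynomial.evalEval_add, Polynomial.evalEval_mul, hs, hs',
        mul_zero, add_zero, Polynomial.evalEval_C] at h
      exact h.symm
    rcases mul_eq_zero.1 h0 with h | h
    · exact nonZeroDivisors.ne_zero hr1 h
    · exact nonZeroDivisors.ne_zero hr2 h

end Pool.Agent.K3M
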