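import Mathlib
import Pool.Agent.K3M.Basic

/-!
Surfaces of tridegree (2,2,2): irreducibility of the affine equation of a fibre.
-/

namespace Pool.Agent.K3M

open MvPolynomial Topology Pool.Agent.MazurC Pool.Agent.MazurT Pool.Agent.MazurQ

namespace CTwo

variable {K : Type} [Field K]

/-- A quadratic form on the Segre quadric is a form of bidegree (2,2). -/
theorem exists_bi [CharZero K] {f : MvPolynomial (Fin 4) K} (hf : f.IsHomogeneous 2) :
    ∃ g : Fin 3 → Fin 3 → K, ∀ {S : Type} [CommRing S] (φ : K →+* S) (x y : Fin 2 → S),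
      eval₂ φ (tw x y) f = bi (fun i j => φ (g i j)) x y := by
  obtain ⟨q, hq, rfl⟩ := exists_qf f hf
  refine ⟨![![q 0 0, 2 * q 0 1, q 1 1], ![2 * q 0 2, 2 * q 0 3 + 2 * q 1 2, 2 * q 1 3],
    ![q 2 2, 2 * q 2 3, q 3 3]], ?_⟩
  intro S _ φ x y
  rw [eval₂_qf]
  have h10 := hq 1 0
  have h20 := hq 2 0
  have h30 := hq 3 0
  have h21 := hq 2 1
  have h31 := hq 3 1
  have h32 := hq 3 2
  have hφ : φ 2 = 2 := map_ofNat φ 2
  simp only [Bq, bi, tw, Fin.sum_univ_succ, Fin.sum_univ_zero]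
  simp [h10, h20, h30, h21, h31, h32, hφ]
  ring

/-- The polynomial in `X` with coefficients in `K[t]`. -/
noncomputable def cf (a : Fin 3 → K) : Polynomial K :=
  Polynomial.C (a 0) * Polynomial.X ^ 2 + Polynomial.C (a 1) * Polynomial.X + Polynomial.C (a 2)

theorem th_eq_eval₂ (f : MvPolynomial (Fin 4) K) :
    th K f = eval₂ (Polynomial.C.comp Polynomial.C)
      (tw ![Polynomial.X, 1] ![Polynomial.C Polynomial.X, 1]) f := by
  rw [th, coe_eval₂Hom]
  congr 1
  funext l
  fin_cases l <;> simp [tw]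

theorem th_eq {f : MvPolynomial (Fin 4) K} {g : Fin 3 → Fin 3 → K}
    (hg : ∀ {S : Type} [CommRing S] (φ : K →+* S) (x y : Fin 2 → S),
      eval₂ φ (tw x y) f = bi (fun i j => φ (g i j)) x y) :
    th K f = Polynomial.C (cf (g 0)) * Polynomial.X ^ 2 + Polynomial.C (cf (g 1)) * Polynomial.X
      + Polynomial.C (cf (g 2)) := by
  rw [th_eq_eval₂, hg]
  simp only [bi, cf, Fin.sum_univ_succ, Fin.sum_univ_zero]
  simp
  ring

theorem swap_th_eq {f : MvPolynomial (Fin 4) K} {g : Fin 3 → Fin 3 → K}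
    (hg : ∀ {S : Type} [CommRing S] (φ : K →+* S) (x y : Fin 2 → S),
      eval₂ φ (tw x y) f = bi (fun i j => φ (g i j)) x y) :
    Polynomial.Bivariate.swap (th K f) =
      Polynomial.C (cf (fun i => g i 0)) * Polynomial.X ^ 2 +
      Polynomial.C (cf (fun i => g i 1)) * Polynomial.X + Polynomial.C (cf (fun i => g i 2)) := by
  rw [th_eq hg]
  simp only [cf, map_add, map_mul, map_pow, Polynomial.Bivariate.swap_X,
    Polynomial.Bivariate.swap_Y, Polynomial.Bivariate.swap_C_C]
  ring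

theorem cf_eq_zero {a : Fin 3 → K} (h : cf a = 0) : ∀ i, a i = 0 := by
  have h0 : (cf a).coeff 0 = a 2 := by simp [cf]
  have h1 : (cf a).coeff 1 = a 1 := by simp [cf]
  have h2 : (cf a).coeff 2 = a 0 := by simp [cf]
  rw [h, Polynomial.coeff_zero] at h0 h1 h2
  intro i
  fin_cases i
  · exact h2.symm
  · exact h1.symm
  · exact h0.symm

/-- Evaluation of `K[t][X]` at `X = s`, `t = t`. -/
noncomputable def ev2 {S : Type} [CommRing S] (φ : K →+* S) (s t : S) :
    Polynomial (Polynomial K) →+* S :=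
  Polynomial.eval₂RingHom (Polynomial.eval₂RingHom φ t) s

theorem ev2_C {S : Type} [CommRing S] (φ : K →+* S) (s t : S) (p : Polynomial K) :
    ev2 φ s t (Polynomial.C p) = p.eval₂ φ t := by
  simp [ev2]

theorem ev2_X {S : Type} [CommRing S] (φ : K →+* S) (s t : S) :
    ev2 φ s t Polynomial.X = s := by
  simp [ev2]

theorem ev2_swap {S : Type} [CommRing S] (φ : K →+* S) (s t : S)
    (p : Polynomial (Polynomial K)) :
    ev2 φ s t (Polynomial.Bivariate.swap p) = ev2 φ t s p := by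
  have h : ((ev2 φ s t).comp (Polynomial.Bivariate.swap (R := K) : _ →+* _)) = ev2 φ t s := by
    apply Polynomial.ringHom_ext'
    · apply Polynomial.ringHom_ext'
      · ext r
        simp [ev2, Polynomial.Bivariate.swap_C_C]
      · simp [ev2, Polynomial.Bivariate.swap_X]
    · simp [ev2, Polynomial.Bivariate.swap_Y]
  exact RingHom.congr_fun h p

theorem ev2_th {S : Type} [CommRing S] (φ : K →+* S) (s t : S) (f : MvPolynomial (Fin 4) K) :
    ev2 φ s t (th K f) = eval₂ φ (tw ![s, 1] ![t, 1]) f := by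
  rw [th_eq_eval₂, ← coe_eval₂Hom, ← coe_eval₂Hom, ← RingHom.comp_apply]
  congr 1
  apply ringHom_ext
  · intro r; simp [ev2]
  · intro l
    fin_cases l
    · simp only [RingHom.comp_apply, coe_eval₂Hom, eval₂_X, tw]
      simp [ev2]
      ring
    · simp [ev2, tw]
    · simp [ev2, tw]
    · simp [ev2, tw]

/-- A quadratic polynomial function vanishing everywhere has zero coefficients. -/
theorem quad_zero {S : Type} [Field S] [CharZero S] {a b c : S}
    (h : ∀ s : S, a * s ^ 2 + b * s + c = 0) : a = 0 ∧ b = 0 ∧ c = 0 := by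
  have h0 : c = 0 := by simpa using h 0
  have h1 := h 1
  have h2 := h (-1)
  rw [h0] at h1 h2
  have ha : a = 0 := by
    have : 2 * a = 0 := by linear_combination h1 + h2
    exact (mul_eq_zero.1 this).resolve_left two_ne_zero
  refine ⟨ha, ?_, h0⟩
  rw [ha] at h1
  linear_combination h1

/-- A form of bidegree (2,2) vanishing at all `(s, 1)` vanishes at all `x`. -/
theorem bi_zero_left {S : Type} [Field S] [CharZero S] {g : Fin 3 → Fin 3 → S} {y : Fin 2 → S}
    (h : ∀ s : S, bi g ![s, 1] y = 0) (x : Fin 2 → S) : bi g x y = 0 := by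
  have h1 : ∀ x : Fin 2 → S, bi g x y =
      (g 0 0 * y 0 ^ 2 + g 0 1 * y 0 * y 1 + g 0 2 * y 1 ^ 2) * x 0 ^ 2 +
      (g 1 0 * y 0 ^ 2 + g 1 1 * y 0 * y 1 + g 1 2 * y 1 ^ 2) * (x 0 * x 1) +
      (g 2 0 * y 0 ^ 2 + g 2 1 * y 0 * y 1 + g 2 2 * y 1 ^ 2) * x 1 ^ 2 := by
    intro x
    simp only [bi, Fin.sum_univ_succ, Fin.sum_univ_zero]
    simp
    ring
  obtain ⟨ha, hb, hc⟩ := quad_zero (a := g 0 0 * y 0 ^ 2 + g 0 1 * y 0 * y 1 + g 0 2 * y 1 ^ 2)
    (b := g 1 0 * y 0 ^ 2 + g 1 1 * y 0 * y 1 + g 1 2 * y 1 ^ 2)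
    (c := g 2 0 * y 0 ^ 2 + g 2 1 * y 0 * y 1 + g 2 2 * y 1 ^ 2) (fun s => by
      have := h s
      rw [h1] at this
      simpa using this)
  rw [h1, ha, hb, hc]
  ring

theorem bi_swap {S : Type} [CommRing S] (g : Fin 3 → Fin 3 → S) (x y : Fin 2 → S) :
    bi (fun i j => g j i) y x = bi g x y := by
  rw [bi, bi, Finset.sum_comm]
  refine Finset.sum_congr rfl fun i _ => Finset.sum_congr rfl fun j _ => ?_
  ring

theorem bi_zero_right {S : Type} [Field S] [CharZero S] {g : Fin 3 → Fin 3 → S} {x : Fin 2 → S}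
    (h : ∀ t : S, bi g x ![t, 1] = 0) (y : Fin 2 → S) : bi g x y = 0 := by
  rw [← bi_swap]
  apply bi_zero_left
  intro s
  rw [bi_swap]
  exact h s

/-- A nonunit divisor of degree `0` in `X` has a root. -/
theorem exists_root_of_natDegree_zero {q : Polynomial (Polynomial K)} (h0 : q.natDegree = 0)
    (hu : ¬ IsUnit q) :
    ∃ t : AlgebraicClosure K, ∀ s : AlgebraicClosure K, ev2 (ac K) s t q = 0 := by
  obtain ⟨r, rfl⟩ : ∃ r, q = Polynomial.C r := ⟨_, Polynomial.eq_C_of_natDegree_eq_zero h0⟩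
  have hr : ¬ IsUnit r := fun h => hu (h.map Polynomial.C)
  have hd : r.degree ≠ 0 := by
    intro h
    exact hr (Polynomial.isUnit_iff_degree_eq_zero.2 h)
  obtain ⟨t, ht⟩ := IsAlgClosed.exists_eval₂_eq_zero (ac K) r hd
  exact ⟨t, fun s => by rw [ev2_C]; exact ht⟩

theorem coeff_swap (p : Polynomial (Polynomial K)) (i j : ℕ) :
    ((Polynomial.Bivariate.swap p).coeff i).coeff j = (p.coeff j).coeff i := by
  induction p using Polynomial.induction_on' with
  | add p q hp hq => rw [map_add]; simp [hp, hq]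
  | monomial n f =>
    induction f using Polynomial.induction_on' with
    | add p q hp hq => rw [map_add, map_add]; simp [hp, hq, Polynomial.coeff_monomial]
    | monomial m r =>
      rw [Polynomial.Bivariate.swap_monomial_monomial]
      simp only [Polynomial.coeff_monomial]
      split_ifs <;> simp_all [Polynomial.coeff_monomial]

/-- A polynomial of bidegree (1,1) is bilinear. -/
theorem ev2_bl {p : Polynomial (Polynomial K)} (h1 : p.natDegree ≤ 1)
    (h2 : (Polynomial.Bivariate.swap p).natDegree ≤ 1) :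
    ∃ b : Fin 2 → Fin 2 → K, ∀ s t : K, ev2 (RingHom.id K) s t p = bl b ![s, 1] ![t, 1] := by
  refine ⟨![![(p.coeff 1).coeff 1, (p.coeff 1).coeff 0],
    ![(p.coeff 0).coeff 1, (p.coeff 0).coeff 0]], ?_⟩
  have hc : ∀ i, (p.coeff i).natDegree ≤ 1 := by
    intro i
    rw [Polynomial.natDegree_le_iff_coeff_eq_zero]
    intro j hj
    rw [← coeff_swap, Polynomial.coeff_eq_zero_of_natDegree_lt
      (p := Polynomial.Bivariate.swap p) (by omega), Polynomial.coeff_zero]
  intro s t
  conv_lhs => rw [Polynomial.eq_X_add_C_of_natDegree_le_one h1]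
  rw [map_add, map_mul, ev2_C, ev2_C, ev2_X,
    Polynomial.eq_X_add_C_of_natDegree_le_one (hc 1),
    Polynomial.eq_X_add_C_of_natDegree_le_one (hc 0)]
  simp [bl, Fin.sum_univ_succ]
  ring

end CTwo

open CTwo

/-- C2. -/
theorem th_irreducible {K : Type} [Field K] [CharZero K] {f : MvPolynomial (Fin 4) K}
    (hf : f.IsHomogeneous 2)
    (hx : ∀ x : Fin 2 → AlgebraicClosure K, x ≠ 0 →
      ∃ y : Fin 2 → AlgebraicClosure K, eval₂ (ac K) (tw x y) f ≠ 0)
    (hy : ∀ y : Fin 2 → AlgebraicClosure K, y ≠ 0 →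
      ∃ x : Fin 2 → AlgebraicClosure K, eval₂ (ac K) (tw x y) f ≠ 0)
    (hnp : ¬ ∃ b b' : Fin 2 → Fin 2 → K, ∀ x y : Fin 2 → K,
      eval (tw x y) f = bl b x y * bl b' x y) :
    Irreducible (th K f) ∧ (th K f).natDegree = 2 ∧
      (Polynomial.Bivariate.swap (th K f)).natDegree = 2 := by
  obtain ⟨g, hg⟩ := exists_bi hf
  have hA : cf (g 0) ≠ 0 := by
    intro h
    have h0 := cf_eq_zero h
    obtain ⟨y, hy1⟩ := hx ![1, 0] (by intro h; simpa using congrFun h 0)
    apply hy1
    rw [hg]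
    simp [bi, Fin.sum_univ_succ, h0]
  have hA' : cf (fun i => g i 0) ≠ 0 := by
    intro h
    have h0 := cf_eq_zero h
    obtain ⟨x, hx1⟩ := hy ![1, 0] (by intro h; simpa using congrFun h 0)
    apply hx1
    rw [hg]
    have e0 : g 0 0 = 0 := h0 0
    have e1 : g 1 0 = 0 := h0 1
    have e2 : g 2 0 = 0 := h0 2
    simp [bi, Fin.sum_univ_succ, e0, e1, e2]
  have hd1 : (th K f).natDegree = 2 := by
    rw [th_eq hg]; exact Polynomial.natDegree_quadratic hA
  have hd2 : (Polynomial.Bivariate.swap (th K f)).natDegree = 2 := by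
    rw [swap_th_eq hg]; exact Polynomial.natDegree_quadratic hA'
  refine ⟨?_, hd1, hd2⟩
  have hne : th K f ≠ 0 := by
    intro h
    rw [h] at hd1
    simp at hd1
  -- divisors
  have key1 : ∀ q, q ∣ th K f → ¬ IsUnit q → q.natDegree ≠ 0 := by
    rintro q ⟨r, hr⟩ hu h0
    obtain ⟨t, ht⟩ := exists_root_of_natDegree_zero h0 hu
    obtain ⟨x, hx1⟩ := hy ![t, 1] (by intro h; simpa using congrFun h 1)
    apply hx1
    rw [hg]
    apply bi_zero_left
    intro s
    rw [← hg, ← ev2_th, hr, map_mul, ht, zero_mul]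
  have key2 : ∀ q, q ∣ th K f → ¬ IsUnit q → (Polynomial.Bivariate.swap q).natDegree ≠ 0 := by
    rintro q ⟨r, hr⟩ hu h0
    have hu' : ¬ IsUnit (Polynomial.Bivariate.swap q) := by
      intro h
      apply hu
      have := h.map (Polynomial.Bivariate.swap (R := K))
      rwa [Polynomial.Bivariate.swap_swap_apply] at this
    obtain ⟨s, hs⟩ := exists_root_of_natDegree_zero h0 hu'
    obtain ⟨y, hy1⟩ := hx ![s, 1] (by intro h; simpa using congrFun h 1)
    apply hy1
    rw [hg]
    apply bi_zero_right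
    intro t
    have h1 := hs t
    rw [ev2_swap] at h1
    rw [← hg, ← ev2_th, hr, map_mul, h1, zero_mul]
  rw [irreducible_iff]
  refine ⟨fun h => ?_, ?_⟩
  · rw [Polynomial.isUnit_iff] at h
    obtain ⟨r, _, hr⟩ := h
    rw [← hr, Polynomial.natDegree_C] at hd1
    omega
  · intro p q hpq
    by_contra hcon
    rw [not_or] at hcon
    obtain ⟨hup, huq⟩ := hcon
    have hp0 : p ≠ 0 := by rintro rfl; rw [zero_mul] at hpq; exact hne hpq
    have hq0 : q ≠ 0 := by rintro rfl; rw [mul_zero] at hpq; exact hne hpq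
    have hp0' : Polynomial.Bivariate.swap p ≠ 0 := by
      rw [Ne, map_eq_zero_iff _ (Polynomial.Bivariate.swap (R := K)).injective]; exact hp0
    have hq0' : Polynomial.Bivariate.swap q ≠ 0 := by
      rw [Ne, map_eq_zero_iff _ (Polynomial.Bivariate.swap (R := K)).injective]; exact hq0
    have hdp : p ∣ th K f := ⟨q, hpq⟩
    have hdq : q ∣ th K f := ⟨p, by rw [hpq, mul_comm]⟩
    have e1 := hd1
    rw [hpq, Polynomial.natDegree_mul hp0 hq0] at e1
    have e2 := hd2
    rw [hpq, map_mul, Polynomial.natDegree_mul hp0' hq0'] at e2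
    have a1 := key1 p hdp hup
    have a2 := key1 q hdq huq
    have a3 := key2 p hdp hup
    have a4 := key2 q hdq huq
    obtain ⟨b, hb⟩ := ev2_bl (p := p) (by omega) (by omega)
    obtain ⟨b', hb'⟩ := ev2_bl (p := q) (by omega) (by omega)
    apply hnp
    refine ⟨b, b', ?_⟩
    -- the product of bilinear forms is a form of bidegree (2,2)
    have hprod : ∃ g' : Fin 3 → Fin 3 → K, ∀ x y : Fin 2 → K,
        bl b x y * bl b' x y = bi g' x y := by
      refine ⟨![![b 0 0 * b' 0 0, b 0 0 * b' 0 1 + b 0 1 * b' 0 0, b 0 1 * b' 0 1],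
        ![b 0 0 * b' 1 0 + b 1 0 * b' 0 0,
          b 0 0 * b' 1 1 + b 1 1 * b' 0 0 + b 0 1 * b' 1 0 + b 1 0 * b' 0 1,
          b 0 1 * b' 1 1 + b 1 1 * b' 0 1],
        ![b 1 0 * b' 1 0, b 1 0 * b' 1 1 + b 1 1 * b' 1 0, b 1 1 * b' 1 1]], ?_⟩
      intro x y
      simp only [bl, bi, Fin.sum_univ_succ, Fin.sum_univ_zero]
      simp
      ring
    obtain ⟨g', hg'⟩ := hprod
    have hf' : ∀ x y : Fin 2 → K, eval (tw x y) f = bi g x y := fun x y =>
      hg (RingHom.id K) x y
    have hsub : ∀ x y : Fin 2 → K, bi (fun i j => g i j - g' i j) x y =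
        bi g x y - bi g' x y := by
      intro x y
      simp only [bi, ← Finset.sum_sub_distrib]
      refine Finset.sum_congr rfl fun i _ => Finset.sum_congr rfl fun j _ => ?_
      ring
    intro x y
    rw [hf', hg', ← sub_eq_zero, ← hsub]
    apply bi_zero_right
    intro t
    apply bi_zero_left
    intro s
    rw [hsub, sub_eq_zero, ← hf', ← hg', ← hb, ← hb', ← map_mul, ← hpq, ev2_th]
    rfl

end Pool.Agent.K3M
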