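import Mathlib
import Pool.Agent.K3M.Basic

/-!
Standard monomials on the Segre quadric.
-/

namespace Pool.Agent.K3M

open MvPolynomial Pool.Agent.MazurC Pool.Agent.MazurT Pool.Agent.MazurQ

variable {K : Type} [Field K]

/-- The exponents of the standard monomial of degree `d` with image `X ^ a * t ^ b`. -/
noncomputable def expo (d a b : ℕ) : Fin 4 →₀ ℕ :=
  Finsupp.equivFunOnFinite.symm ![min a b, a - b, b - a, d - max a b]

/-- The section of `th` in degree `d`. -/
noncomputable def sMap (K : Type) [Field K] (d : ℕ) :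
    Polynomial (Polynomial K) →ₗ[K] MvPolynomial (Fin 4) K :=
  Polynomial.lsum (fun a => Polynomial.lsum (fun b => MvPolynomial.monomial (expo d a b)))

theorem sMap_monomial (d a b : ℕ) (c : K) :
    sMap K d (Polynomial.monomial a (Polynomial.monomial b c)) = monomial (expo d a b) c := by
  simp [sMap, Polynomial.lsum_apply, Polynomial.sum_monomial_index]

theorem sMap_apply (d : ℕ) (q : Polynomial (Polynomial K)) :
    sMap K d q = ∑ a ∈ q.support, ∑ b ∈ (q.coeff a).support,
      monomial (expo d a b) ((q.coeff a).coeff b) := by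
  simp only [sMap, Polynomial.lsum_apply, Polynomial.sum_def]

theorem th_monomial (e : Fin 4 →₀ ℕ) (c : K) :
    th K (monomial e c) =
      Polynomial.monomial (e 0 + e 1) (Polynomial.monomial (e 0 + e 2) c) := by
  rw [th, coe_eval₂Hom, eval₂_monomial, Finsupp.prod_fintype _ _ (fun i => pow_zero _),
    Fin.prod_univ_four, ← Polynomial.C_mul_X_pow_eq_monomial,
    ← Polynomial.C_mul_X_pow_eq_monomial]
  simp only [RingHom.comp_apply, Matrix.cons_val_zero, Matrix.cons_val_one, Matrix.cons_val,
    mul_pow, one_pow, Polynomial.C_mul, Polynomial.C_pow, pow_add]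
  ring

theorem expo_zero (d a b : ℕ) : expo d a b 0 = min a b := rfl
theorem expo_one (d a b : ℕ) : expo d a b 1 = a - b := rfl
theorem expo_two (d a b : ℕ) : expo d a b 2 = b - a := rfl
theorem expo_three (d a b : ℕ) : expo d a b 3 = d - max a b := rfl

theorem th_sMap (d : ℕ) (q : Polynomial (Polynomial K)) : th K (sMap K d q) = q := by
  rw [sMap_apply, map_sum]
  conv_rhs => rw [Polynomial.as_sum_support q]
  refine Finset.sum_congr rfl fun a _ => ?_
  rw [map_sum]
  conv_rhs => rw [Polynomial.as_sum_support (q.coeff a), map_sum]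
  refine Finset.sum_congr rfl fun b _ => ?_
  rw [th_monomial, expo_zero, expo_one, expo_two]
  congr 2
  · omega
  · congr 1
    omega

theorem degree_eq (e : Fin 4 →₀ ℕ) : e.degree = e 0 + e 1 + e 2 + e 3 := by
  rw [Finsupp.degree_eq_sum, Fin.sum_univ_four]

theorem sMap_hom {d : ℕ} {q : Polynomial (Polynomial K)} (h : q.natDegree ≤ d)
    (h' : ∀ a, (q.coeff a).natDegree ≤ d) : (sMap K d q).IsHomogeneous d := by
  rw [sMap_apply]
  refine IsHomogeneous.sum _ _ _ fun a ha => IsHomogeneous.sum _ _ _ fun b hb => ?_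
  refine isHomogeneous_monomial _ ?_
  rw [degree_eq, expo_zero, expo_one, expo_two, expo_three]
  have h1 : a ≤ d := (Polynomial.le_natDegree_of_mem_supp a ha).trans h
  have h2 : b ≤ d := (Polynomial.le_natDegree_of_mem_supp b hb).trans (h' a)
  omega

theorem hom_degree {p : MvPolynomial (Fin 4) K} {d : ℕ} (hp : p.IsHomogeneous d)
    {e : Fin 4 →₀ ℕ} (he : e ∈ p.support) : e 0 + e 1 + e 2 + e 3 = d := by
  rw [← degree_eq, Finsupp.degree_eq_weight_one]
  exact hp (mem_support_iff.1 he)

theorem sub_sMap_mem {p : MvPolynomial (Fin 4) K} {d : ℕ} (hp : p.IsHomogeneous d) :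
    p - sMap K d (th K p) ∈ Ideal.span {Q0 K} := by
  have h0 : p - sMap K d (th K p) = ∑ e ∈ p.support,
      (monomial e (coeff e p) - sMap K d (th K (monomial e (coeff e p)))) := by
    rw [Finset.sum_sub_distrib, ← map_sum, ← map_sum, support_sum_monomial_coeff]
  rw [h0]
  refine Ideal.sum_mem _ fun e he => ?_
  have hd := hom_degree hp he
  rw [th_monomial, sMap_monomial, ← Ideal.Quotient.mk_eq_mk_iff_sub_mem]
  have hq : Ideal.Quotient.mk (Ideal.span {Q0 K}) (X 0) * Ideal.Quotient.mk (Ideal.span {Q0 K}) (X 3) = Ideal.Quotient.mk (Ideal.span {Q0 K}) (X 1) * Ideal.Quotient.mk (Ideal.span {Q0 K}) (X 2) := by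
    rw [← map_mul, ← map_mul, Ideal.Quotient.mk_eq_mk_iff_sub_mem]
    exact Ideal.subset_span rfl
  rw [monomial_eq, monomial_eq, Finsupp.prod_fintype _ _ (fun i => pow_zero _),
    Finsupp.prod_fintype _ _ (fun i => pow_zero _), Fin.prod_univ_four, Fin.prod_univ_four]
  simp only [expo_zero, expo_one, expo_two, expo_three, map_mul, map_pow]
  congr 1
  generalize Ideal.Quotient.mk (Ideal.span {Q0 K}) (X 0) = x0 at hq ⊢
  generalize Ideal.Quotient.mk (Ideal.span {Q0 K}) (X 1) = x1 at hq ⊢
  generalize Ideal.Quotient.mk (Ideal.span {Q0 K}) (X 2) = x2 at hq ⊢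
  generalize Ideal.Quotient.mk (Ideal.span {Q0 K}) (X 3) = x3 at hq ⊢
  obtain ⟨m, hm⟩ : ∃ m, m = min (e 1) (e 2) := ⟨_, rfl⟩
  obtain ⟨a, ha⟩ : ∃ a, e 1 = a + m := ⟨e 1 - m, by omega⟩
  obtain ⟨b, hb⟩ : ∃ b, e 2 = b + m := ⟨e 2 - m, by omega⟩
  have e0 : min (e 0 + e 1) (e 0 + e 2) = e 0 + m := by omega
  have e1 : e 0 + e 1 - (e 0 + e 2) = a := by omega
  have e2 : e 0 + e 2 - (e 0 + e 1) = b := by omega
  have e3 : d - max (e 0 + e 1) (e 0 + e 2) = e 3 + m := by omega
  rw [e0, e1, e2, e3, ha, hb]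
  have : (x0 * x3) ^ m = (x1 * x2) ^ m := by rw [hq]
  rw [mul_pow, mul_pow] at this
  linear_combination (-x0 ^ e 0 * x1 ^ a * x2 ^ b * x3 ^ e 3) * this

theorem th_natDegree_le {p : MvPolynomial (Fin 4) K} {d : ℕ} (hp : p.IsHomogeneous d) :
    (th K p).natDegree ≤ d ∧ (Polynomial.Bivariate.swap (th K p)).natDegree ≤ d := by
  have h0 : th K p = ∑ e ∈ p.support,
      Polynomial.monomial (e 0 + e 1) (Polynomial.monomial (e 0 + e 2) (coeff e p)) := by
    conv_lhs => rw [← support_sum_monomial_coeff p, map_sum]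
    exact Finset.sum_congr rfl fun e _ => th_monomial _ _
  rw [h0, map_sum]
  constructor
  · refine Polynomial.natDegree_sum_le_of_forall_le _ _ fun e he => ?_
    have := hom_degree hp he
    exact (Polynomial.natDegree_monomial_le _).trans (by omega)
  · refine Polynomial.natDegree_sum_le_of_forall_le _ _ fun e he => ?_
    rw [Polynomial.Bivariate.swap_monomial_monomial]
    have := hom_degree hp he
    exact (Polynomial.natDegree_monomial_le _).trans (by omega)

theorem coeff_swap (q : Polynomial (Polynomial K)) (a b : ℕ) :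
    ((Polynomial.Bivariate.swap q).coeff b).coeff a = (q.coeff a).coeff b := by
  induction q using Polynomial.induction_on' with
  | add p q hp hq => simp only [map_add, Polynomial.coeff_add, hp, hq]
  | monomial n f =>
    induction f using Polynomial.induction_on' with
    | add p q hp hq => simp only [map_add, Polynomial.coeff_add, hp, hq]
    | monomial m r =>
      rw [Polynomial.Bivariate.swap_monomial_monomial]
      simp only [Polynomial.coeff_monomial]
      split_ifs <;> simp_all [Polynomial.coeff_monomial]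

/-- C3. -/
theorem mem_of_dvd {K : Type} [Field K] {f : MvPolynomial (Fin 4) K}
    (hf : f.IsHomogeneous 2) (h1 : (th K f).natDegree = 2)
    (h2 : (Polynomial.Bivariate.swap (th K f)).natDegree = 2)
    {p : MvPolynomial (Fin 4) K} {d : ℕ} (hp : p.IsHomogeneous d)
    (hdvd : th K f ∣ th K p) : p ∈ Ideal.span {Q0 K, f} := by
  have hle : Ideal.span {Q0 K} ≤ Ideal.span {Q0 K, f} :=
    Ideal.span_mono (Set.singleton_subset_iff.2 (Set.mem_insert _ _))
  by_cases h0 : th K p = 0
  · have := sub_sMap_mem hp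
    rw [h0, map_zero, sub_zero] at this
    exact hle this
  obtain ⟨q, hq⟩ := hdvd
  have hq0 : q ≠ 0 := by
    rintro rfl
    exact h0 (by rw [hq, mul_zero])
  have hf0 : th K f ≠ 0 := by
    intro h
    exact h0 (by rw [hq, h, zero_mul])
  obtain ⟨hd1, hd2⟩ := th_natDegree_le hp
  have hs0 : Polynomial.Bivariate.swap q ≠ 0 := by
    intro h
    exact hq0 ((map_eq_zero_iff _ (Polynomial.Bivariate.swap (R := K)).injective).1 h)
  have hsf0 : Polynomial.Bivariate.swap (th K f) ≠ 0 := by
    intro h
    exact hf0 ((map_eq_zero_iff _ (Polynomial.Bivariate.swap (R := K)).injective).1 h)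
  rw [hq, Polynomial.natDegree_mul hf0 hq0, h1] at hd1
  rw [hq, map_mul, Polynomial.natDegree_mul hsf0 hs0, h2] at hd2
  have hg : (sMap K (d - 2) q).IsHomogeneous (d - 2) := by
    refine sMap_hom (by omega) fun a => ?_
    rw [Polynomial.natDegree_le_iff_coeff_eq_zero]
    intro b hb
    have hb' : (Polynomial.Bivariate.swap q).coeff b = 0 :=
      Polynomial.coeff_eq_zero_of_natDegree_lt (by omega)
    rw [← coeff_swap, hb', Polynomial.coeff_zero]
  have hfg : (f * sMap K (d - 2) q).IsHomogeneous d := by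
    have := hf.mul hg
    rwa [show 2 + (d - 2) = d by omega] at this
  have h3 := sub_sMap_mem (hp.sub hfg)
  have h4 : th K (p - f * sMap K (d - 2) q) = 0 := by
    rw [map_sub, map_mul, th_sMap, hq, sub_self]
  rw [h4, map_zero, sub_zero] at h3
  have h5 : f * sMap K (d - 2) q ∈ Ideal.span {Q0 K, f} :=
    Ideal.mul_mem_right _ _ (Ideal.subset_span (Set.mem_insert_of_mem _ rfl))
  have := Ideal.add_mem _ (hle h3) h5
  rwa [sub_add_cancel] at this

end Pool.Agent.K3M
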