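import Mathlib
import Pool.Agent.K3M.Basic
import Pool.Agent.K3M.C1
import Pool.Agent.K3M.C2
import Pool.Agent.K3M.C3

/-!
Curves of bidegree (2,2): the ideal is prime and rational points are dense.
-/

namespace Pool.Agent.K3M

open MvPolynomial Topology Pool.Agent.MazurC Pool.Agent.MazurT Pool.Agent.MazurQ

section Chart

variable {K : Type} [Field K]

theorem th_X (i : Fin 4) : th K (X i) =
    (![Polynomial.X * Polynomial.C Polynomial.X, Polynomial.X, Polynomial.C Polynomial.X, 1] :
      Fin 4 → Polynomial (Polynomial K)) i := by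
  rw [th, coe_eval₂Hom, eval₂_X]

theorem th_Q0 : th K (Q0 K) = 0 := by
  rw [Q0, map_sub, map_mul, map_mul, th_X, th_X, th_X, th_X]
  simp

/-- Values of the polynomial of the chart. -/
theorem evalEval_th (t s : K) (p : MvPolynomial (Fin 4) K) :
    Polynomial.evalEval t s (th K p) = eval (tw ![s, 1] ![t, 1]) p := by
  have h : (Polynomial.evalEvalRingHom t s).comp (th K) = eval (tw ![s, 1] ![t, 1]) := by
    apply ringHom_ext
    · intro r
      simp [th, Polynomial.evalEval]
    · intro l
      rw [RingHom.comp_apply, th_X]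
      fin_cases l <;> simp [tw, Polynomial.evalEval]
  exact congrArg (fun g => g p) h

end Chart

section Ideal4

variable {K : Type} [Field K] {f : MvPolynomial (Fin 4) K}

/-- The graded chart. -/
noncomputable def Th (K : Type) [Field K] :
    MvPolynomial (Fin 4) K →+* Polynomial (Polynomial (Polynomial K)) :=
  (Polynomial.mapRingHom (th K)).comp (hT (Fin 4) K : MvPolynomial (Fin 4) K →+* _)

theorem coeff_Th (p : MvPolynomial (Fin 4) K) (j : ℕ) :
    (Th K p).coeff j = th K (homogeneousComponent j p) := by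
  rw [Th, RingHom.comp_apply, Polynomial.coe_mapRingHom, Polynomial.coeff_map]
  congr 1
  exact coeff_hT p j

theorem mem_span_iff (hf : f.IsHomogeneous 2) (h1 : (th K f).natDegree = 2)
    (h2 : (Polynomial.Bivariate.swap (th K f)).natDegree = 2) (p : MvPolynomial (Fin 4) K) :
    p ∈ Ideal.span {Q0 K, f} ↔ ∀ j, th K f ∣ th K (homogeneousComponent j p) := by
  constructor
  · intro hp j
    obtain ⟨a, b, rfl⟩ := Ideal.mem_span_pair.1 hp
    rw [map_add, hc_mul_hom a Q0_hom, hc_mul_hom b hf, map_add]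
    by_cases hj : 2 ≤ j
    · rw [if_pos hj, if_pos hj, map_mul, map_mul, th_Q0, mul_zero, zero_add]
      exact Dvd.intro_left _ rfl
    · rw [if_neg hj, if_neg hj, map_zero, zero_add]
      exact dvd_zero _
  · intro h
    rw [← sum_homogeneousComponent p]
    refine Ideal.sum_mem _ fun j _ => ?_
    exact mem_of_dvd hf h1 h2 (homogeneousComponent_isHomogeneous j p) (h j)

theorem prime_span (hf : f.IsHomogeneous 2) (hirr : Irreducible (th K f))
    (h1 : (th K f).natDegree = 2) (h2 : (Polynomial.Bivariate.swap (th K f)).natDegree = 2) :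
    (Ideal.span {Q0 K, f}).IsPrime := by
  have hI : Ideal.span {Q0 K, f} =
      Ideal.comap (Th K) (Ideal.span {Polynomial.C (th K f)}) := by
    ext p
    refine (mem_span_iff hf h1 h2 p).trans ?_
    rw [Ideal.mem_comap]
    refine Iff.trans ?_ (Ideal.mem_span_singleton
      (α := Polynomial (Polynomial (Polynomial K)))).symm
    rw [Polynomial.C_dvd_iff_dvd_coeff]
    refine forall_congr' fun j => ?_
    rw [coeff_Th]
  have hp : Prime (Polynomial.C (th K f)) := Polynomial.prime_C_iff.2 hirr.prime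
  have : (Ideal.span {Polynomial.C (th K f)}).IsPrime :=
    (Ideal.span_singleton_prime hp.ne_zero).2 hp
  rw [hI]
  exact Ideal.IsPrime.comap _

end Ideal4

section Main4

variable {K : Type} [Field K] [CharZero K] {f : MvPolynomial (Fin 4) K}

theorem eval_zero_of_line {p : MvPolynomial (Fin 4) K} (y : Fin 4 → K)
    (h : ∀ t : K, t ≠ 0 → eval (t • y) p = 0) : eval (0 : Fin 4 → K) p = 0 := by
  let P : Polynomial K := aeval (fun i => Polynomial.C (y i) * Polynomial.X) p
  have hP : ∀ t : K, P.eval t = eval (t • y) p := by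
    intro t
    have e : (Polynomial.evalRingHom t).comp
        (aeval (fun i => Polynomial.C (y i) * Polynomial.X) :
          MvPolynomial (Fin 4) K →ₐ[K] Polynomial K).toRingHom = eval (t • y) := by
      apply ringHom_ext
      · intro r
        change Polynomial.eval t (aeval _ (C r)) = _
        rw [aeval_C, eval_C]
        exact Polynomial.eval_C
      · intro l
        change Polynomial.eval t (aeval _ (X l)) = _
        rw [aeval_X, eval_X, Polynomial.eval_mul, Polynomial.eval_C, Polynomial.eval_X,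
          Pi.smul_apply, smul_eq_mul, mul_comm]
    exact congrArg (fun g => g p) e
  have hP0 : P = 0 := by
    refine Polynomial.eq_zero_of_infinite_isRoot _ ?_
    refine (Set.finite_singleton (0 : K)).infinite_compl.mono ?_
    intro t ht
    change P.eval t = 0
    rw [hP]
    exact h t ht
  have h3 := hP 0
  rw [hP0, Polynomial.eval_zero, zero_smul] at h3
  exact h3.symm

/-- The finitely many fibres through `(1, 0)`. -/
theorem finite_bad (hf : f.IsHomogeneous 2)
    (hx : ∀ x : Fin 2 → AlgebraicClosure K, x ≠ 0 →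
      ∃ y : Fin 2 → AlgebraicClosure K, eval₂ (ac K) (tw x y) f ≠ 0) :
    {t : K | eval (tw ![1, 0] ![t, 1]) f = 0}.Finite := by
  obtain ⟨q, _, rfl⟩ := exists_qf f hf
  by_contra hinf
  have hinf' : {t : K | eval (tw ![1, 0] ![t, 1]) (qf q) = 0}.Infinite := hinf
  have hval : ∀ (T : Type) [CommRing T] (φ : K →+* T) (a b : T),
      eval₂ φ (tw ![1, 0] ![a, b]) (qf q) =
        φ (q 0 0) * a ^ 2 + φ (q 0 1 + q 1 0) * (a * b) + φ (q 1 1) * b ^ 2 := by
    intro T _ φ a b
    rw [eval₂_qf, Bq]
    simp only [Fin.sum_univ_four, tw, Matrix.cons_val_zero, Matrix.cons_val_one,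
      Matrix.cons_val, map_add]
    ring
  let P : Polynomial K := Polynomial.C (q 0 0) * Polynomial.X ^ 2 +
    Polynomial.C (q 0 1 + q 1 0) * Polynomial.X + Polynomial.C (q 1 1)
  have hP0 : P = 0 := by
    refine Polynomial.eq_zero_of_infinite_isRoot _ (hinf'.mono ?_)
    intro t ht
    have h1 : eval₂ (RingHom.id K) (tw ![1, 0] ![t, 1]) (qf q) = 0 := ht
    rw [hval] at h1
    change P.eval t = 0
    simp only [P, Polynomial.eval_add, Polynomial.eval_mul, Polynomial.eval_C,
      Polynomial.eval_pow, Polynomial.eval_X]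
    simpa using h1
  have c2 : q 0 0 = 0 := by
    have := congrArg (fun p => Polynomial.coeff p 2) hP0
    simpa [P, Polynomial.coeff_C, Polynomial.coeff_X] using this
  have c1 : q 0 1 + q 1 0 = 0 := by
    have := congrArg (fun p => Polynomial.coeff p 1) hP0
    simpa [P, Polynomial.coeff_C, Polynomial.coeff_X, Polynomial.coeff_X_pow] using this
  have c0 : q 1 1 = 0 := by
    have := congrArg (fun p => Polynomial.coeff p 0) hP0
    simpa [P, Polynomial.coeff_C, Polynomial.coeff_X, Polynomial.coeff_X_pow] using this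
  have hne : (![1, 0] : Fin 2 → AlgebraicClosure K) ≠ 0 := by
    intro h
    simpa using congrFun h 0
  obtain ⟨y, hy⟩ := hx ![1, 0] hne
  apply hy
  have e : y = ![y 0, y 1] := by
    funext i
    fin_cases i <;> rfl
  rw [e, hval, c2, c1, c0]
  simp

theorem dense_points (hf : f.IsHomogeneous 2) (hirr : Irreducible (th K f))
    (hx : ∀ x : Fin 2 → AlgebraicClosure K, x ≠ 0 →
      ∃ y : Fin 2 → AlgebraicClosure K, eval₂ (ac K) (tw x y) f ≠ 0)
    (hinf : {t : K | ∃ x : Fin 2 → K, x ≠ 0 ∧ eval (tw x ![t, 1]) f = 0}.Infinite)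
    {p : MvPolynomial (Fin 4) K} (hp : ∀ w : Fin 4 → K, w ≠ 0 → eval w (Q0 K) = 0 →
        eval w f = 0 → eval w p = 0) (j : ℕ) :
    th K f ∣ th K (homogeneousComponent j p) := by
  have hcomp : ∀ w : Fin 4 → K, w ≠ 0 → eval w (Q0 K) = 0 → eval w f = 0 →
      eval w (homogeneousComponent j p) = 0 := by
    intro w hw hQ hfw
    have hne : ∀ t : K, t ≠ 0 → eval (t • w) p = 0 := by
      intro t ht
      refine hp _ (smul_ne_zero ht hw) ?_ ?_
      · rw [eval_smul_hom Q0_hom, hQ, mul_zero]
      · rw [eval_smul_hom hf, hfw, mul_zero]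
    refine component_eval_eq_zero p w (fun t => ?_) j
    by_cases ht : t = 0
    · rw [ht, zero_smul]
      exact eval_zero_of_line w hne
    · exact hne t ht
  refine dvd_of_infinite hirr ?_
  refine (hinf.sdiff (finite_bad hf hx)).mono ?_
  rintro t ⟨⟨x, hx0, hxt⟩, hbad⟩
  have h1 : x 1 ≠ 0 := by
    intro h1
    apply hbad
    have h0 : x 0 ≠ 0 := by
      intro h0
      apply hx0
      funext i
      fin_cases i
      · exact h0
      · exact h1
    have e : tw x ![t, 1] = x 0 • tw ![1, 0] ![t, 1] := by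
      funext i
      fin_cases i <;> simp [tw, h1]
    rw [e, eval_smul_hom hf] at hxt
    exact (mul_eq_zero.1 hxt).resolve_left (pow_ne_zero _ h0)
  have e : tw x ![t, 1] = x 1 • tw ![x 0 / x 1, 1] ![t, 1] := by
    funext i
    fin_cases i
    · simp only [tw, Pi.smul_apply, smul_eq_mul]
      simp
      field_simp
    · simp only [tw, Pi.smul_apply, smul_eq_mul]
      simp
      field_simp
    · simp [tw]
    · simp [tw]
  rw [e, eval_smul_hom hf] at hxt
  have hfw := (mul_eq_zero.1 hxt).resolve_left (pow_ne_zero _ h1)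
  have hw : tw ![x 0 / x 1, 1] ![t, 1] ≠ 0 := by
    intro h
    simpa [tw] using congrFun h 3
  have hQ : eval (tw ![x 0 / x 1, 1] ![t, 1]) (Q0 K) = 0 := by
    rw [eval_Q0, tw_Q0, sub_self]
  refine ⟨x 0 / x 1, ?_, ?_⟩
  · rw [evalEval_th]
    exact hfw
  · rw [evalEval_th]
    exact hcomp _ hw hQ hfw

/-- C4. -/
theorem curve_main {K : Type} [Field K] [CharZero K] {f : MvPolynomial (Fin 4) K}
    (hf : f.IsHomogeneous 2)
    (hx : ∀ x : Fin 2 → AlgebraicClosure K, x ≠ 0 →
      ∃ y : Fin 2 → AlgebraicClosure K, eval₂ (ac K) (tw x y) f ≠ 0)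
    (hy : ∀ y : Fin 2 → AlgebraicClosure K, y ≠ 0 →
      ∃ x : Fin 2 → AlgebraicClosure K, eval₂ (ac K) (tw x y) f ≠ 0)
    (hnp : ¬ ∃ b b' : Fin 2 → Fin 2 → K, ∀ x y : Fin 2 → K,
      eval (tw x y) f = bl b x y * bl b' x y)
    (hinf : {t : K | ∃ x : Fin 2 → K, x ≠ 0 ∧ eval (tw x ![t, 1]) f = 0}.Infinite) :
    (Ideal.span {Q0 K, f}).IsPrime ∧
      ∀ p : MvPolynomial (Fin 4) K, (∀ w : Fin 4 → K, w ≠ 0 → eval w (Q0 K) = 0 →
        eval w f = 0 → eval w p = 0) → p ∈ Ideal.span {Q0 K, f} := by
  obtain ⟨hirr, h1, h2⟩ := th_irreducible hf hx hy hnp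
  refine ⟨prime_span hf hirr h1 h2, fun p hp => ?_⟩
  rw [mem_span_iff hf h1 h2]
  exact dense_points hf hirr hx hinf hp

end Main4

end Pool.Agent.K3M
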