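import Mathlib
import Pool.Agent.K3M.Basic

/-!
Jacobian criterion on the Segre quadric.
-/

namespace Pool.Agent.K3M

open MvPolynomial Topology Pool.Agent.MazurC Pool.Agent.MazurT Pool.Agent.MazurQ

theorem exists_dt_ne {K : Type} [Field K] {x : Fin 2 → K} (hx : x ≠ 0) :
    ∃ v : Fin 2 → K, dt v x ≠ 0 := by
  obtain ⟨a, ha⟩ := exists_ne hx
  fin_cases a
  · refine ⟨![0, 1], ?_⟩
    have : dt ![0, 1] x = -x 0 := by simp [dt]
    rw [this]; exact neg_ne_zero.2 ha
  · refine ⟨![1, 0], ?_⟩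
    have : dt ![1, 0] x = x 1 := by simp [dt]
    rw [this]; exact ha

theorem dbl {K : Type} [Field K] {n : ℕ} {q : Fin n → Fin n → K} (hq : ∀ i j, q i j = q j i)
    (T : (Fin 2 → K) → (Fin n → K))
    (hT : ∀ (r s : K) (u v : Fin 2 → K), T (r • u + s • v) = r • T u + s • T v)
    {x : Fin 2 → K} (hx : x ≠ 0) (h : ∀ u, Bq q (T x) (T u) = 0) :
    ∃ e : K, ∀ u, Bq q (T u) (T u) = e * dt u x ^ 2 := by
  obtain ⟨v, hv⟩ := exists_dt_ne hx
  refine ⟨Bq q (T v) (T v) / dt v x ^ 2, fun u => ?_⟩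
  have h1 : dt v u • x + dt u x • v = dt v x • u + (0 : K) • u := by
    funext i
    fin_cases i <;> simp [dt] <;> ring
  have h2 := congrArg T h1
  rw [hT, hT] at h2
  have h3 := Bq_comb hq (dt v u) (dt u x) (T x) (T v)
  rw [h2, Bq_comb hq, h x, h v] at h3
  field_simp
  linear_combination h3

/-- JAC. -/
theorem jac {K : Type} [Field K] [CharZero K] {f : MvPolynomial (Fin 4) K}
    (hf : f.IsHomogeneous 2) {x y : Fin 2 → K} (hx : x ≠ 0) (hy : y ≠ 0)
    (hP : eval (tw x y) f = 0)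
    (hns : ¬ ((∃ e : K, ∀ u : Fin 2 → K, eval (tw u y) f = e * dt u x ^ 2) ∧
      (∃ e : K, ∀ u : Fin 2 → K, eval (tw x u) f = e * dt u y ^ 2))) :
    ∃ i j, eval (tw x y) (pderiv i (Q0 K)) * eval (tw x y) (pderiv j f) ≠
      eval (tw x y) (pderiv j (Q0 K)) * eval (tw x y) (pderiv i f) := by
  obtain ⟨q, hq, rfl⟩ := exists_qf f hf
  by_contra hcon
  push Not at hcon
  apply hns
  have hQ : ∀ i, eval (tw x y) (pderiv i (Q0 K)) =
      (![x 1 * y 1, -(x 1 * y 0), -(x 0 * y 1), x 0 * y 0] : Fin 4 → K) i := by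
    intro i
    fin_cases i <;> simp [Q0, tw, Derivation.leibniz, pderiv_X, Pi.single_apply]
  have hlin : ∀ v : Fin 4 → K, Bq q (tw x y) v = ∑ j, v j * Bq q (tw x y) (Pi.single j 1) := by
    intro v
    have e1 : ∀ l, Bq q (tw x y) (Pi.single l 1) = ∑ i, q i l * tw x y i := by
      intro l
      rw [Bq]
      refine Finset.sum_congr rfl fun i _ => ?_
      rw [Finset.sum_eq_single l]
      · simp
      · intro j _ hj; simp [hj]
      · simp
    simp only [e1, Finset.mul_sum]
    rw [Bq, Finset.sum_comm]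
    refine Finset.sum_congr rfl fun i _ => Finset.sum_congr rfl fun j _ => ?_
    ring
  have hm : ∀ i j, (![x 1 * y 1, -(x 1 * y 0), -(x 0 * y 1), x 0 * y 0] : Fin 4 → K) i *
      Bq q (tw x y) (Pi.single j 1) =
      (![x 1 * y 1, -(x 1 * y 0), -(x 0 * y 1), x 0 * y 0] : Fin 4 → K) j *
      Bq q (tw x y) (Pi.single i 1) := by
    intro i j
    have h1 := hcon i j
    rw [hQ, hQ, pderiv_qf hq, pderiv_qf hq] at h1
    have h2 : (2 : K) * ((![x 1 * y 1, -(x 1 * y 0), -(x 0 * y 1), x 0 * y 0] : Fin 4 → K) i *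
      Bq q (tw x y) (Pi.single j 1) -
      (![x 1 * y 1, -(x 1 * y 0), -(x 0 * y 1), x 0 * y 0] : Fin 4 → K) j *
      Bq q (tw x y) (Pi.single i 1)) = 0 := by linear_combination h1
    exact sub_eq_zero.1 ((mul_eq_zero.1 h2).resolve_left two_ne_zero)
  -- orthogonality
  have horth : ∀ v : Fin 4 → K,
      v 0 * (x 1 * y 1) - v 1 * (x 1 * y 0) - v 2 * (x 0 * y 1) + v 3 * (x 0 * y 0) = 0 →
      Bq q (tw x y) v = 0 := by
    intro v hv
    have h1 : ∀ i, (![x 1 * y 1, -(x 1 * y 0), -(x 0 * y 1), x 0 * y 0] : Fin 4 → K) i *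
        Bq q (tw x y) v = 0 := by
      intro i
      rw [hlin, Fin.sum_univ_four]
      have e0 := hm i 0
      have e1 := hm i 1
      have e2 := hm i 2
      have e3 := hm i 3
      simp only [Matrix.cons_val_zero, Matrix.cons_val_one, Matrix.cons_val] at e0 e1 e2 e3
      linear_combination v 0 * e0 + v 1 * e1 + v 2 * e2 + v 3 * e3 +
        Bq q (tw x y) (Pi.single i 1) * hv
    obtain ⟨a, ha⟩ := exists_ne hx
    obtain ⟨b, hb⟩ := exists_ne hy
    have hab := mul_ne_zero ha hb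
    fin_cases a <;> fin_cases b
    · have := h1 3
      simp only [Matrix.cons_val] at this
      exact (mul_eq_zero.1 this).resolve_left hab
    · have := h1 2
      simp only [Matrix.cons_val] at this
      exact (mul_eq_zero.1 this).resolve_left (neg_ne_zero.2 hab)
    · have := h1 1
      simp only [Matrix.cons_val] at this
      exact (mul_eq_zero.1 this).resolve_left (neg_ne_zero.2 hab)
    · have := h1 0
      simp only [Matrix.cons_val] at this
      exact (mul_eq_zero.1 this).resolve_left hab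
  constructor
  · obtain ⟨e, he⟩ := dbl hq (fun u => tw u y) (by
      intro r s u v
      funext i; fin_cases i <;> simp [tw] <;> ring) hx (by
      intro u
      apply horth
      simp only [tw]
      show u 0 * y 0 * (x 1 * y 1) - u 0 * y 1 * (x 1 * y 0) - u 1 * y 0 * (x 0 * y 1) +
        u 1 * y 1 * (x 0 * y 0) = 0
      ring)
    exact ⟨e, fun u => by rw [eval_qf]; exact he u⟩
  · obtain ⟨e, he⟩ := dbl hq (fun u => tw x u) (by
      intro r s u v
      funext i; fin_cases i <;> simp [tw] <;> ring) hy (by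
      intro u
      apply horth
      simp only [tw]
      show x 0 * u 0 * (x 1 * y 1) - x 0 * u 1 * (x 1 * y 0) - x 1 * u 0 * (x 0 * y 1) +
        x 1 * u 1 * (x 0 * y 0) = 0
      ring)
    exact ⟨e, fun u => by rw [eval_qf]; exact he u⟩

end Pool.Agent.K3M
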