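import Mathlib
import Pool.Agent.K3M.Basic
import Pool.Agent.K3M.RT
import Pool.Agent.K3M.GR

/-!
Fibres of large height are not products of bilinear forms.
-/

namespace Pool.Agent.K3M

open MvPolynomial Topology Pool.Agent.MazurC Pool.Agent.MazurT Pool.Agent.MazurQ Height

theorem exists_dt_ne2 {K : Type} [Field K] {x y : Fin 2 → K} (hx : x ≠ 0) (hy : y ≠ 0) :
    ∃ v : Fin 2 → K, dt v x ≠ 0 ∧ dt v y ≠ 0 := by
  by_cases h : dt x y = 0
  · obtain ⟨c, hc, hxy⟩ := exists_smul_of_dt hx hy h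
    obtain ⟨a, ha⟩ := exists_ne hy
    have h1 : ∃ v : Fin 2 → K, dt v y ≠ 0 := by
      fin_cases a
      · refine ⟨![0, 1], ?_⟩
        have : dt ![0, 1] y = -y 0 := by simp [dt]
        rw [this]; exact neg_ne_zero.2 ha
      · refine ⟨![1, 0], ?_⟩
        have : dt ![1, 0] y = y 1 := by simp [dt]
        rw [this]; exact ha
    obtain ⟨v, hv⟩ := h1
    refine ⟨v, ?_, hv⟩
    have : dt v x = c * dt v y := by rw [hxy]; simp [dt]; ring
    rw [this]; exact mul_ne_zero hc hv
  · refine ⟨x + y, ?_, ?_⟩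
    · have : dt (x + y) x = -dt x y := by simp [dt]; ring
      rw [this]; exact neg_ne_zero.2 h
    · have : dt (x + y) y = dt x y := by simp [dt]; ring
      rw [this]; exact h

theorem bl_height {K : Type} [Field K] [NumberField K] (b : Fin 2 → Fin 2 → K)
    (hb : ∀ u : Fin 2 → K, u ≠ 0 → ∃ v : Fin 2 → K, bl b u v ≠ 0) :
    ∃ C : ℝ, ∀ u v : Fin 2 → K, u ≠ 0 → v ≠ 0 → bl b u v = 0 →
      logHeight u ≤ C + logHeight v := by
  have hbl : ∀ u v : Fin 2 → K, bl b u v =
      u 0 * (b 0 0 * v 0 + b 0 1 * v 1) + u 1 * (b 1 0 * v 0 + b 1 1 * v 1) := by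
    intro u v
    simp only [bl, Fin.sum_univ_two]
    ring
  have hdet : b 0 0 * b 1 1 - b 0 1 * b 1 0 ≠ 0 := by
    intro hdet
    have h1 : (![b 1 0, -b 0 0] : Fin 2 → K) = 0 := by
      by_contra h
      obtain ⟨v, hv⟩ := hb _ h
      apply hv
      rw [hbl]
      simp only [Matrix.cons_val_zero, Matrix.cons_val_one]
      linear_combination -v 1 * hdet
    have h2 : (![b 1 1, -b 0 1] : Fin 2 → K) = 0 := by
      by_contra h
      obtain ⟨v, hv⟩ := hb _ h
      apply hv
      rw [hbl]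
      simp only [Matrix.cons_val_zero, Matrix.cons_val_one]
      linear_combination v 0 * hdet
    have e1 : b 1 0 = 0 := by simpa using congrFun h1 0
    have e2 : b 0 0 = 0 := by simpa using congrFun h1 1
    have e3 : b 1 1 = 0 := by simpa using congrFun h2 0
    have e4 : b 0 1 = 0 := by simpa using congrFun h2 1
    obtain ⟨v, hv⟩ := hb ![1, 0] (by intro h; simpa using congrFun h 0)
    apply hv
    rw [hbl, e1, e2, e3, e4]; ring
  let A : Fin 2 × Fin 2 → K := fun p => (![![b 1 0, b 1 1], ![-b 0 0, -b 0 1]] :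
    Fin 2 → Fin 2 → K) p.1 p.2
  refine ⟨totalWeight K * Real.log (Nat.card (Fin 2)) + logHeight A, ?_⟩
  intro u v hu hv huv
  have h1 := logHeight_linearMap_apply_le A v
  set w : Fin 2 → K := fun j => ∑ i, A (j, i) * v i with hw
  have hw0 : w 0 = b 1 0 * v 0 + b 1 1 * v 1 := by
    simp [hw, A, Fin.sum_univ_two]
  have hw1 : w 1 = -(b 0 0 * v 0 + b 0 1 * v 1) := by
    simp [hw, A, Fin.sum_univ_two]; ring
  have hwne : w ≠ 0 := by
    intro h
    have h2 : w 0 = 0 := congrFun h 0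
    have h3 : w 1 = 0 := congrFun h 1
    rw [hw0] at h2
    rw [hw1] at h3
    apply hv
    funext i
    fin_cases i
    · have h4 : (b 0 0 * b 1 1 - b 0 1 * b 1 0) * v 0 = 0 := by
        linear_combination -b 0 1 * h2 - b 1 1 * h3
      exact (mul_eq_zero.1 h4).resolve_left hdet
    · have h4 : (b 0 0 * b 1 1 - b 0 1 * b 1 0) * v 1 = 0 := by
        linear_combination b 0 0 * h2 + b 1 0 * h3
      exact (mul_eq_zero.1 h4).resolve_left hdet
  have hd : dt u w = 0 := by
    rw [hbl] at huv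
    rw [dt, hw0, hw1]
    linear_combination -huv
  obtain ⟨c, hc, huw⟩ := exists_smul_of_dt hu hwne hd
  rw [huw, logHeight_smul_eq_logHeight _ hc]
  exact h1

/-- NB. -/
theorem not_bilinear {K : Type} [Field K] [NumberField K] {G : MvPolynomial (Fin 8) K}
    (hG : G.IsHomogeneous 2) (hNL : NL G) {c : ℝ} (hc : HI G c) (π : Equiv.Perm (Fin 3))
    {x y z : Fin 2 → K} (hx : x ≠ 0) (hy : y ≠ 0) (hz : z ≠ 0)
    (hP : eval (segp π x y z) G = 0) (hgood : c < 2 * logHeight z) :
    ¬ ∃ b b' : Fin 2 → Fin 2 → K, ∀ u v : Fin 2 → K,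
      eval (segp π u v z) G = bl b u v * bl b' u v := by
  rintro ⟨b, b', hbb⟩
  have hnz : ∀ u : Fin 2 → K, u ≠ 0 → ∃ v : Fin 2 → K, eval (segp π u v z) G ≠ 0 := by
    intro u hu
    by_contra hcon
    push Not at hcon
    have h1 : eval (segp (π * Equiv.swap 0 1) y u z) G = 0 := by
      rw [segp_swap01]; exact hcon y
    obtain ⟨v', e, hv', he, h2⟩ := second_root hG hNL (π * Equiv.swap 0 1) hy hu hz h1
    obtain ⟨w, hw1, hw2⟩ := exists_dt_ne2 hy hv'
    have h3 := h2 w
    rw [segp_swap01, hcon w] at h3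
    exact mul_ne_zero (mul_ne_zero he hw1) hw2 h3.symm
  obtain ⟨C, hC⟩ := bl_height b (fun u hu => by
    obtain ⟨v, hv⟩ := hnz u hu
    refine ⟨v, fun h => hv ?_⟩
    rw [hbb, h, zero_mul])
  obtain ⟨C', hC'⟩ := bl_height b' (fun u hu => by
    obtain ⟨v, hv⟩ := hnz u hu
    refine ⟨v, fun h => hv ?_⟩
    rw [hbb, h, mul_zero])
  obtain ⟨x', y', hx', hy', hP', _, h1⟩ := growth hG hNL hc π hx hy hz hP hgood
    (max C C' + 1)
  have h2 := le_max_left C C'
  have h3 := le_max_right C C'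
  rw [hbb] at hP'
  rcases mul_eq_zero.1 hP' with h | h
  · have := hC x' y' hx' hy' h
    linarith
  · have := hC' x' y' hx' hy' h
    linarith

end Pool.Agent.K3M
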