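import Mathlib
import Pool.Agent.K3M.Basic
import Pool.Agent.K3M.C4
import Pool.Agent.K3M.NB
import Pool.Agent.K3M.Small
import Pool.Agent.K3M.JAC

/-!
Surfaces of tridegree (2,2,2): local ideals on the fibres.
-/

namespace Pool.Agent.K3M

open MvPolynomial Topology Pool.Agent.MazurC Pool.Agent.MazurT Pool.Agent.MazurQ Height

section Fibre

variable {K : Type} [Field K] [NumberField K] {L : Type} [NontriviallyNormedField L]
  {σ : K →+* L}

/-- FC. -/
theorem fibre_core (hσ : DenseRange σ) [ProperSpace L] {G : MvPolynomial (Fin 8) K}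
    (hG : G.IsHomogeneous 2) (hNL : NL G) {c : ℝ} (hc : HI G c) (π : Equiv.Perm (Fin 3))
    {x y z : Fin 2 → K} (hx : x ≠ 0) (hy : y ≠ 0) (hz : z ≠ 0)
    (hP : eval (segp π x y z) G = 0) (hgood : c < 2 * logHeight z) :
    (Ideal.span {Q0 K, fib π z G}).IsPrime ∧
      localIdeal σ {Q0 K, fib π z G} (sv σ (tw x y)) =
        {p | p ∈ Ideal.span {Q0 K, fib π z G}} := by
  have hf : (fib π z G).IsHomogeneous 2 := fib_hom π z hG
  have hz' : (fun i => ac K (z i)) ≠ 0 := by
    intro h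
    apply hz
    funext i
    have h1 := congrFun h i
    exact (map_eq_zero (ac K)).1 h1
  have he : ∀ u v : Fin 2 → K, eval (tw u v) (fib π z G) = eval (segp π u v z) G := by
    intro u v
    rw [eval_fib, embz_tw]
  have he2 : ∀ u v : Fin 2 → AlgebraicClosure K, eval₂ (ac K) (tw u v) (fib π z G) =
      eval₂ (ac K) (segp π u v fun i => ac K (z i)) G := by
    intro u v
    rw [eval₂_fib, embz_tw]
  obtain ⟨hprime, hdense⟩ := curve_main hf
    (fun u hu => by
      obtain ⟨v, hv⟩ := hNL (π * Equiv.swap 0 1) u _ hu hz'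
      refine ⟨v, ?_⟩
      rw [he2, ← segp_swap01]
      exact hv)
    (fun u hu => by
      obtain ⟨v, hv⟩ := hNL π u _ hu hz'
      refine ⟨v, ?_⟩
      rw [he2]
      exact hv)
    (by
      rintro ⟨b, b', hbb⟩
      refine not_bilinear hG hNL hc π hx hy hz hP hgood ⟨b, b', fun u v => ?_⟩
      rw [← he]; exact hbb u v)
    (by
      have h1 := infinite_classes hG hNL hc π hx hy hz hP hgood
      refine h1.mono ?_
      rintro t ⟨x', hx', h2⟩
      exact ⟨x', hx', by rw [he]; exact h2⟩)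
  refine ⟨hprime, ?_⟩
  have hjac := jac hf hx hy (by rw [he]; exact hP) (by
    rintro ⟨⟨e, h1⟩, ⟨e', h2⟩⟩
    refine nonsing hG hNL hc π hx hy hz hP hgood ⟨⟨e, fun u => ?_⟩, ⟨e', fun u => ?_⟩⟩
    · rw [← he]; exact h1 u
    · rw [← he]; exact h2 u)
  refine (final_two (σ := σ) hσ Q0_hom hf).2 hprime (fun p hp => hdense p hp) (sv σ (tw x y)) ?_
  intro U hU
  obtain ⟨i, j, hij⟩ := hjac
  refine ⟨tw x y, ?_, ?_, ⟨i, j, hij⟩, 1, one_ne_zero, ?_⟩
  · rw [eval_Q0, tw_Q0, sub_self]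
  · rw [he]; exact hP
  · have h2 : (fun i => (1 : L) * σ (tw x y i)) = sv σ (tw x y) := by
      funext i; rw [one_mul]; rfl
    rw [h2]; exact mem_of_mem_nhds hU

end Fibre

end Pool.Agent.K3M
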