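import Mathlib
import Pool.Agent.K3M.Basic
import Pool.Agent.K3M.FC

/-!
Surfaces of tridegree (2,2,2): restriction of local ideals to the fibres.
-/

namespace Pool.Agent.K3M

open MvPolynomial Topology Pool.Agent.MazurC Pool.Agent.MazurT Pool.Agent.MazurQ Height

theorem fs_mem_XA {K : Type} [Field K] {G : MvPolynomial (Fin 8) K} {π : Equiv.Perm (Fin 3)}
    {x y z : Fin 2 → K} (hP : eval (segp π x y z) G = 0) : segp π x y z ∈ XA G := by
  rintro g (⟨_, hg⟩ | hg)
  · rw [segp_eq_seg]
    exact hg _ _ _
  · rw [Set.mem_singleton_iff.1 hg]; exact hP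

section Fibre

variable {K : Type} [Field K] [NumberField K] {L : Type} [NontriviallyNormedField L]
  {σ : K →+* L}

/-- FS. -/
theorem fibre_stmt (hσ : DenseRange σ) [ProperSpace L] {G : MvPolynomial (Fin 8) K}
    (hG : G.IsHomogeneous 2) (hNL : NL G) {c : ℝ} (hc : HI G c) (π : Equiv.Perm (Fin 3))
    {x y z : Fin 2 → K} (hx : x ≠ 0) (hy : y ≠ 0) (hz : z ≠ 0)
    (hP : eval (segp π x y z) G = 0) (hgood : c < 2 * logHeight z)
    {g : MvPolynomial (Fin 8) K} (hg : g ∈ LI σ (XA G) (sv σ (segp π x y z))) :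
    fib π z g ∈ Ideal.span {Q0 K, fib π z G} := by
  obtain ⟨-, hloc⟩ := fibre_core hσ hG hNL hc π hx hy hz hP hgood
  have hmem : fib π z g ∈ localIdeal σ {Q0 K, fib π z G} (sv σ (tw x y)) := by
    obtain ⟨U, hU, h⟩ := hg
    have hcont : Continuous fun w : Fin 4 → L => embz π (fun i => σ (z i)) w := by
      refine continuous_pi fun i => ?_
      exact (continuous_apply _).mul continuous_const
    refine ⟨(fun w : Fin 4 → L => embz π (fun i => σ (z i)) w) ⁻¹' U, ?_, ?_⟩
    · apply hcont.continuousAt.preimage_mem_nhds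
      have h1 : embz π (fun i => σ (z i)) (sv σ (tw x y)) = sv σ (segp π x y z) := by
        have h2 := embz_map σ π z (tw x y)
        rw [embz_tw] at h2
        exact h2
      rw [h1]; exact hU
    · intro w hw0 hw hn s
      have hw1 : w 0 * w 3 = w 1 * w 2 := by
        have h1 := hw (Q0 K) (by simp)
        rw [eval_Q0] at h1
        exact sub_eq_zero.1 h1
      obtain ⟨x', y', hx', hy', rfl⟩ := exists_tw hw0 hw1
      have hw2 : eval (segp π x' y' z) G = 0 := by
        have h1 := hw (fib π z G) (by simp)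
        rwa [eval_fib, embz_tw] at h1
      have hn' : Near σ U (segp π x' y' z) := by
        obtain ⟨r, hr, hrU⟩ := hn
        refine ⟨r, hr, ?_⟩
        have h2 := embz_map σ π z (tw x' y')
        rw [embz_tw] at h2
        have h3 : embz π (fun i => σ (z i)) (fun i => r * σ (tw x' y' i)) ∈ U := hrU
        have h4 : (fun i => r * σ (tw x' y' i)) = r • (fun i => σ (tw x' y' i)) := by
          funext i; rfl
        rw [h4, embz_smul, h2] at h3
        exact h3
      rw [eval_fib, embz_smul, embz_tw]
      exact h _ (fs_mem_XA hw2) (segp_ne_zero π hx' hy' hz) hn' s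
  rw [hloc] at hmem
  exact hmem

end Fibre

end Pool.Agent.K3M
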