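import Mathlib
import Pool.Agent.K3M.Basic
import Pool.Agent.K3M.FC

/-!
Surfaces of tridegree (2,2,2): rational points on the fibres near a given one.
-/

namespace Pool.Agent.K3M

open MvPolynomial Topology Pool.Agent.MazurC Pool.Agent.MazurT Pool.Agent.MazurQ Height

theorem span_low {n : ℕ} {K : Type} [Field K] {q r : MvPolynomial (Fin n) K}
    (hq : q.IsHomogeneous 2) (hr : r.IsHomogeneous 2) {f : MvPolynomial (Fin n) K}
    (hf : f ∈ Ideal.span {q, r}) {d : ℕ} (hd : d < 2) (hh : f.IsHomogeneous d) : f = 0 := by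
  obtain ⟨a, b, rfl⟩ := Ideal.mem_span_pair.1 hf
  rw [← hc_self hh, map_add, hc_mul_hom a hq, hc_mul_hom b hr, if_neg (by omega),
    if_neg (by omega), add_zero]

section Fibre

variable {K : Type} [Field K] [NumberField K] {L : Type} [NontriviallyNormedField L]
  {σ : K →+* L}

/-- NM. -/
theorem near_many (hσ : DenseRange σ) [ProperSpace L] {G : MvPolynomial (Fin 8) K}
    (hG : G.IsHomogeneous 2) (hNL : NL G) {c : ℝ} (hc : HI G c) (π : Equiv.Perm (Fin 3))
    {x y z : Fin 2 → K} (hx : x ≠ 0) (hy : y ≠ 0) (hz : z ≠ 0)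
    (hP : eval (segp π x y z) G = 0) (hgood : c < 2 * logHeight z)
    {U : Set (Fin 8 → L)} (hU : U ∈ 𝓝 (sv σ (segp π x y z))) (T : Finset (Fin 2 → K)) :
    ∃ x' y' : Fin 2 → K, x' ≠ 0 ∧ y' ≠ 0 ∧ eval (segp π x' y' z) G = 0 ∧
      Near σ U (segp π x' y' z) ∧ ∀ t ∈ T, t ≠ 0 → dt x' t ≠ 0 := by
  classical
  by_contra hcon
  push Not at hcon
  obtain ⟨hprime, hloc⟩ := fibre_core hσ hG hNL hc π hx hy hz hP hgood
  set l : (Fin 2 → K) → MvPolynomial (Fin 4) K := fun t => X 0 * C (t 1) - X 2 * C (t 0) with hl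
  have hle : ∀ (t : Fin 2 → K) (w : Fin 4 → K), eval w (l t) = w 0 * t 1 - w 2 * t 0 := by
    intro t w; simp [hl]
  have hmem : ∏ t ∈ T.filter (fun t => t ≠ 0), l t ∈
      localIdeal σ {Q0 K, fib π z G} (sv σ (tw x y)) := by
    have hcont : Continuous fun w : Fin 4 → L => embz π (fun i => σ (z i)) w := by
      refine continuous_pi fun i => ?_
      exact (continuous_apply _).mul continuous_const
    refine ⟨(fun w : Fin 4 → L => embz π (fun i => σ (z i)) w) ⁻¹' U, ?_, ?_⟩
    · apply hcont.continuousAt.preimage_mem_nhds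
      have h1 : embz π (fun i => σ (z i)) (sv σ (tw x y)) = sv σ (segp π x y z) := by
        have h2 := embz_map σ π z (tw x y)
        rw [embz_tw] at h2
        exact h2
      rw [h1]; exact hU
    · intro w hw0 hw hn s
      have hw1 : w 0 * w 3 = w 1 * w 2 := by
        have h1 := hw (Q0 K) (by simp)
        rw [eval_Q0] at h1
        exact sub_eq_zero.1 h1
      obtain ⟨x', y', hx', hy', rfl⟩ := exists_tw hw0 hw1
      have hw2 : eval (segp π x' y' z) G = 0 := by
        have h1 := hw (fib π z G) (by simp)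
        rwa [eval_fib, embz_tw] at h1
      have hn' : Near σ U (segp π x' y' z) := by
        obtain ⟨r, hr, hrU⟩ := hn
        refine ⟨r, hr, ?_⟩
        have h2 := embz_map σ π z (tw x' y')
        rw [embz_tw] at h2
        have h3 : embz π (fun i => σ (z i)) (fun i => r * σ (tw x' y' i)) ∈ U := hrU
        have h4 : (fun i => r * σ (tw x' y' i)) = r • (fun i => σ (tw x' y' i)) := by
          funext i; rfl
        rw [h4, embz_smul, h2] at h3
        exact h3
      obtain ⟨t, ht, ht0, hd⟩ := hcon x' y' hx' hy' hw2 hn'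
      rw [map_prod]
      refine Finset.prod_eq_zero (i := t) (by simp [ht, ht0]) ?_
      rw [hle]
      show s * tw x' y' 0 * t 1 - s * tw x' y' 2 * t 0 = 0
      have e0 : tw x' y' 0 = x' 0 * y' 0 := rfl
      have e2 : tw x' y' 2 = x' 1 * y' 0 := rfl
      rw [dt] at hd
      rw [e0, e2]
      linear_combination s * y' 0 * hd
  rw [hloc] at hmem
  obtain ⟨t, ht, htl⟩ := (hprime.prod_mem_iff).1 hmem
  have ht0 : t ≠ 0 := (Finset.mem_filter.1 ht).2
  have hhom : (l t).IsHomogeneous 1 := by
    refine IsHomogeneous.sub ?_ ?_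
    · have := (isHomogeneous_X K (0 : Fin 4)).mul (isHomogeneous_C (Fin 4) (t 1))
      simpa using this
    · have := (isHomogeneous_X K (2 : Fin 4)).mul (isHomogeneous_C (Fin 4) (t 0))
      simpa using this
  have h0 := span_low Q0_hom (fib_hom π z hG) htl (by norm_num) hhom
  apply ht0
  funext i
  fin_cases i
  · have h1 := hle t ![0, 0, 1, 0]
    rw [h0, map_zero] at h1
    show t 0 = 0
    have h2 : (0 : K) = 0 * t 1 - 1 * t 0 := h1
    linear_combination h2
  · have h1 := hle t ![1, 0, 0, 0]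
    rw [h0, map_zero] at h1
    show t 1 = 0
    have h2 : (0 : K) = 1 * t 1 - 0 * t 0 := h1
    linear_combination -h2

end Fibre

end Pool.Agent.K3M
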