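import Mathlib
import Pool.Agent.K3M.Basic
import Pool.Agent.K3M.CL
import Pool.Agent.K3M.Small
import Pool.Agent.K3M.NM
import Pool.Agent.K3M.FS

/-!
Surfaces of tridegree (2,2,2): local ideals at rational points of large height.
-/

namespace Pool.Agent.K3M

open MvPolynomial Topology Pool.Agent.MazurC Pool.Agent.MazurT Pool.Agent.MazurQ Height

section Gen

variable {K : Type} [Field K]

theorem surf_hom' {G : MvPolynomial (Fin 8) K} (hG : G.IsHomogeneous 2)
    {g : MvPolynomial (Fin 8) K} (hg : g ∈ surf G) : g.IsHomogeneous 2 := by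
  rcases hg with hg | hg
  · exact hg.1
  · rw [Set.mem_singleton_iff.1 hg]; exact hG

theorem segp_mem_XA [Infinite K] {G : MvPolynomial (Fin 8) K} {π : Equiv.Perm (Fin 3)}
    {x y z : Fin 2 → K} (hP : eval (segp π x y z) G = 0) : segp π x y z ∈ XA G := by
  rintro g (⟨_, hg⟩ | hg)
  · rw [segp_eq_seg]
    exact hg _ _ _
  · rw [Set.mem_singleton_iff.1 hg]; exact hP

/-- The local ideal contains the homogeneous components of its elements. -/
theorem LI_component [Infinite K] {L : Type} [NontriviallyNormedField L] {σ : K →+* L}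
    {A : Set (Fin 8 → K)} {x : Fin 8 → L} {f : MvPolynomial (Fin 8) K} (hf : f ∈ LI σ A x)
    (d : ℕ) : homogeneousComponent d f ∈ LI σ A x := by
  obtain ⟨U, hU, h⟩ := hf
  refine ⟨U, hU, fun y hy hy0 hn t => ?_⟩
  rw [eval_smul_hom (homogeneousComponent_isHomogeneous d f),
    component_eval_eq_zero f y (h y hy hy0 hn) d, mul_zero]

end Gen

section Top

variable {K : Type} [Field K] [NumberField K] {L : Type} [NontriviallyNormedField L]
  {σ : K →+* L}

/-- TOP. -/
theorem top_point (hσ : DenseRange σ) [ProperSpace L] {G : MvPolynomial (Fin 8) K}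
    (hG : G.IsHomogeneous 2) (hNL : NL G) {c : ℝ} (hc : HI G c) (π : Equiv.Perm (Fin 3))
    {x y z : Fin 2 → K} (hx : x ≠ 0) (hy : y ≠ 0) (hz : z ≠ 0)
    (hP : eval (segp π x y z) G = 0) (hgood : c < 2 * logHeight z) :
    LI σ (XA G) (sv σ (segp π x y z)) = IX G := by
  classical
  have hPA : segp π x y z ∈ XA G := segp_mem_XA hP
  refine Set.Subset.antisymm ?_ ?_
  · intro f hf u hu
    by_cases hu0 : u = 0
    · obtain ⟨U, hU, h⟩ := hf
      have h1 := h _ hPA (segp_ne_zero π hx hy hz)
        ⟨1, one_ne_zero, by rw [one_smul]; exact mem_of_mem_nhds hU⟩ 0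
      rw [zero_smul] at h1
      have h2 : u = fun i => ac K ((0 : Fin 8 → K) i) := by
        rw [hu0]; funext i; simp
      rw [h2, eval₂_comp_gen, h1, map_zero]
    obtain ⟨a, b, e, ha, hb, he, rfl⟩ := exists_seg (ac K) hu0
      (fun p hp hpz => hu p (Or.inl ⟨hp, hpz⟩))
    obtain ⟨a', b', e', ha', hb', he', habe⟩ := exists_segp (π * Equiv.swap 0 2) a b e ha hb he
    have huG : eval₂ (ac K) (segp (π * Equiv.swap 0 2) a' b' e') G = 0 := by
      rw [habe]; exact hu G (Or.inr rfl)
    -- all homogeneous components vanish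
    have hcomp : ∀ d, eval₂ (ac K) (segp (π * Equiv.swap 0 2) a' b' e')
        (homogeneousComponent d f) = 0 := by
      intro d
      refine closure_all hG hNL (homogeneousComponent_isHomogeneous d f)
        (π * Equiv.swap 0 2) ?_ ha' hb' he' huG
      intro T
      obtain ⟨T0, hT0⟩ := low_classes K (c / 2)
      obtain ⟨U, hU, h⟩ := LI_component hf d
      obtain ⟨V, hVU, hVo, hxV⟩ := mem_nhds_iff.1 hU
      obtain ⟨x', y', hx', hy', hP', ⟨r, hr, hrV⟩, hT'⟩ := near_many hσ hG hNL hc π hx hy hz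
        hP hgood (hVo.mem_nhds hxV) (T ∪ T0)
      refine ⟨x', hx', fun t ht ht0 => hT' t (Finset.mem_union_left _ ht) ht0, ?_⟩
      have hgood' : c < 2 * logHeight x' := by
        by_contra hcon
        obtain ⟨t, ht, ht0, hd⟩ := hT0 x' hx' (by linarith)
        exact hT' t (Finset.mem_union_right _ ht) ht0 hd
      have e1 : segp (π * Equiv.swap 0 2) z y' x' = segp π x' y' z := segp_swap02 π x' y' z
      have h4 : homogeneousComponent d f ∈ LI σ (XA G) (r • sv σ (segp π x' y' z)) :=
        ⟨V, hVo.mem_nhds hrV, fun v hv hv0 hn t => h v hv hv0 (hn.mono hVU) t⟩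
      have h5 := LI_smul_le _ _ hr h4
      rw [← e1] at h5
      exact fibre_stmt hσ hG hNL hc (π * Equiv.swap 0 2) hz hy' hx'
        (by rw [e1]; exact hP') hgood' h5
    have hsum := sum_homogeneousComponent f
    rw [← habe, ← hsum, ← coe_eval₂Hom, map_sum]
    refine Finset.sum_eq_zero fun d _ => ?_
    rw [coe_eval₂Hom]
    exact hcomp d
  · intro f hf
    refine ⟨Set.univ, Filter.univ_mem, fun v hv _ _ t => ?_⟩
    have h1 := hf (fun i => ac K ((t • v) i)) (by
      intro g hg
      rw [eval₂_comp_gen, eval_smul_hom (surf_hom' hG hg), hv g hg, mul_zero, map_zero])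
    rw [eval₂_comp_gen] at h1
    exact (map_eq_zero (ac K)).1 h1

end Top

end Pool.Agent.K3M
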