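import Mathlib
import Pool.Agent.K3M.Basic
import Pool.Agent.K3M.HT2
import Pool.Agent.K3M.Small
import Pool.Agent.K3M.TOP

/-!
Surfaces of tridegree (2,2,2): final statement.
-/

namespace Pool.Agent.K3M

open MvPolynomial Topology Pool.Agent.MazurC Pool.Agent.MazurT Pool.Agent.MazurQ Height

section Gen

variable {K : Type} [Field K]

theorem surf_hom {G : MvPolynomial (Fin 8) K} (hG : G.IsHomogeneous 2)
    {g : MvPolynomial (Fin 8) K} (hg : g ∈ surf G) : g.IsHomogeneous 2 := by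
  rcases hg with hg | hg
  · exact hg.1
  · rw [Set.mem_singleton_iff.1 hg]; exact hG

theorem XA_smul {G : MvPolynomial (Fin 8) K} (hG : G.IsHomogeneous 2) {y : Fin 8 → K}
    (hy : y ∈ XA G) (t : K) : t • y ∈ XA G := by
  intro g hg
  rw [eval_smul_hom (surf_hom hG hg), hy g hg, mul_zero]

theorem IX_eval {G f : MvPolynomial (Fin 8) K} (hf : f ∈ IX G) {y : Fin 8 → K}
    (hy : y ∈ XA G) : eval y f = 0 := by
  have h1 := hf (fun i => ac K (y i)) (by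
    intro g hg
    rw [eval₂_comp_gen, hy g hg, map_zero])
  rw [eval₂_comp_gen] at h1
  exact (map_eq_zero (ac K)).1 h1

theorem IX_subset_LI {L : Type} [NontriviallyNormedField L] {σ : K →+* L}
    {G : MvPolynomial (Fin 8) K} (hG : G.IsHomogeneous 2) (x : Fin 8 → L) :
    IX G ⊆ LI σ (XA G) x := by
  intro f hf
  exact ⟨Set.univ, Filter.univ_mem, fun y hy _ _ t => IX_eval hf (XA_smul hG hy t)⟩

theorem localIdeal_eq_XA {L : Type} [NontriviallyNormedField L] {σ : K →+* L}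
    (G : MvPolynomial (Fin 8) K) (x : Fin 8 → L) :
    localIdeal σ (surf G) x = LI σ (XA G) x := localIdeal_eq_LI (n := 7) (surf G) x

/-- A local ideal if all rational points nearby lie on finitely many lines. -/
theorem LI_finite_lines {L : Type} [NontriviallyNormedField L] {σ : K →+* L}
    {A : Set (Fin 8 → K)} {E : Finset (Fin 8 → K)} {x : Fin 8 → L} {U : Set (Fin 8 → L)}
    (hU : U ∈ 𝓝 x) (h : ∀ y ∈ A, y ≠ 0 → Near σ U y → ∃ e ∈ E, ∃ t : K, y = t • e) :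
    ∃ S : Set (Fin 8 → K), S ⊆ E ∧
      LI σ A x = {f : MvPolynomial (Fin 8) K | ∀ e ∈ S, ∀ t : K, eval (t • e) f = 0} := by
  classical
  refine ⟨{e | e ∈ E ∧ ∀ V ∈ 𝓝 x, ∃ t : K, t • e ∈ A ∧ t • e ≠ 0 ∧ Near σ V (t • e)},
    fun e he => he.1, ?_⟩
  ext f
  constructor
  · rintro ⟨V, hV, hf⟩ e ⟨_, he⟩ s
    obtain ⟨t, h1, h2, h3⟩ := he V hV
    have ht : t ≠ 0 := by
      rintro rfl; exact h2 (zero_smul _ _)
    have h4 := hf _ h1 h2 h3 (s / t)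
    rwa [smul_smul, div_mul_cancel₀ s ht] at h4
  · intro hf
    have hV : ∀ e ∈ E, ∃ V ∈ 𝓝 x, (∀ W ∈ 𝓝 x, ∃ t : K, t • e ∈ A ∧ t • e ≠ 0 ∧
        Near σ W (t • e)) ∨ ∀ t : K, t • e ∈ A → t • e ≠ 0 → ¬ Near σ V (t • e) := by
      intro e _
      by_cases h1 : ∀ W ∈ 𝓝 x, ∃ t : K, t • e ∈ A ∧ t • e ≠ 0 ∧ Near σ W (t • e)
      · exact ⟨Set.univ, Filter.univ_mem, Or.inl h1⟩
      · push Not at h1
        obtain ⟨W, hW, h2⟩ := h1
        exact ⟨W, hW, Or.inr h2⟩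
    choose! V hV1 hV2 using hV
    refine ⟨U ∩ ⋂ e ∈ E, V e, Filter.inter_mem hU ((Filter.biInter_finset_mem E).2 hV1), ?_⟩
    intro y hy hy0 hn s
    obtain ⟨e, he, t, rfl⟩ := h y hy hy0 (hn.mono Set.inter_subset_left)
    rcases hV2 e he with h1 | h1
    · rw [smul_smul]
      exact hf e ⟨he, h1⟩ _
    · exact absurd (hn.mono (Set.inter_subset_right.trans (Set.biInter_subset_of_mem he)))
        (h1 t hy hy0)

end Gen

section Final

variable {K : Type} [Field K] [NumberField K]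

/-- FIN. -/
theorem final {G : MvPolynomial (Fin 8) K} (hG : G.IsHomogeneous 2) (hNL : NL G) :
    ∃ E : Finset (Fin 8 → K), (∀ e ∈ E, e ≠ 0 ∧ e ∈ XA G) ∧
      ∀ (L : Type) [NontriviallyNormedField L] [ProperSpace L]
      (σ : K →+* L), DenseRange σ →
      (∀ x : Fin 8 → L,
        (∀ U ∈ 𝓝 x, ∃ y ∈ XA G, y ≠ 0 ∧ Near σ U y ∧ ∀ e ∈ E, ∀ t : K, y ≠ t • e) →
        localIdeal σ (surf G) x = IX G) ∧
      ∀ x : Fin 8 → L, localIdeal σ (surf G) x = IX G ∨ ∃ S : Set (Fin 8 → K), S ⊆ E ∧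
        localIdeal σ (surf G) x = {f | ∀ e ∈ S, ∀ t : K, eval (t • e) f = 0} := by
  classical
  obtain ⟨c, hc⟩ := exists_HI hG hNL
  obtain ⟨T, hT⟩ := low_classes K (c / 2)
  refine ⟨(((T ×ˢ T) ×ˢ T).image fun t => seg t.1.1 t.1.2 t.2).filter
    fun e => e ≠ 0 ∧ e ∈ XA G, fun e he => (Finset.mem_filter.1 he).2, ?_⟩
  intro L _ _ σ hσ
  set E : Finset (Fin 8 → K) := (((T ×ˢ T) ×ˢ T).image fun t => seg t.1.1 t.1.2 t.2).filter
    fun e => e ≠ 0 ∧ e ∈ XA G with hE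
  have key : ∀ y ∈ XA G, y ≠ 0 → (∀ e ∈ E, ∀ t : K, y ≠ t • e) →
      LI σ (XA G) (sv σ y) = IX G := by
    intro y hy hy0 hyE
    obtain ⟨x1, x2, x3, h1, h2, h3, hyx⟩ := exists_seg (RingHom.id K) hy0
      (fun p hp hpz => hy p (Or.inl ⟨hp, hpz⟩))
    have hyG : eval y G = 0 := hy G (Or.inr rfl)
    have e3 : segp 1 x1 x2 x3 = y := by rw [segp_one, hyx]
    have e2 : segp (1 * Equiv.swap 1 2) x1 x3 x2 = y := by rw [segp_swap12, e3]
    have e1 : segp (1 * Equiv.swap 0 2) x3 x2 x1 = y := by rw [segp_swap02, e3]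
    by_cases g3 : c < 2 * logHeight x3
    · rw [← e3]
      exact top_point hσ hG hNL hc 1 h1 h2 h3 (by rw [e3]; exact hyG) g3
    by_cases g2 : c < 2 * logHeight x2
    · rw [← e2]
      exact top_point hσ hG hNL hc _ h1 h3 h2 (by rw [e2]; exact hyG) g2
    by_cases g1 : c < 2 * logHeight x1
    · rw [← e1]
      exact top_point hσ hG hNL hc _ h3 h2 h1 (by rw [e1]; exact hyG) g1
    exfalso
    obtain ⟨t1, ht1, ht10, hd1⟩ := hT x1 h1 (by linarith)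
    obtain ⟨t2, ht2, ht20, hd2⟩ := hT x2 h2 (by linarith)
    obtain ⟨t3, ht3, ht30, hd3⟩ := hT x3 h3 (by linarith)
    obtain ⟨a1, _, ha1⟩ := exists_smul_of_dt h1 ht10 hd1
    obtain ⟨a2, _, ha2⟩ := exists_smul_of_dt h2 ht20 hd2
    obtain ⟨a3, _, ha3⟩ := exists_smul_of_dt h3 ht30 hd3
    have hys : y = (a1 * a2 * a3) • seg t1 t2 t3 := by
      rw [← e3, ha1, ha2, ha3, segp_smul, segp_one]
    have ha : a1 * a2 * a3 ≠ 0 := by
      intro h0
      rw [h0, zero_smul] at hys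
      exact hy0 hys
    refine hyE (seg t1 t2 t3) ?_ (a1 * a2 * a3) hys
    rw [hE, Finset.mem_filter, Finset.mem_image]
    refine ⟨⟨((t1, t2), t3), by simp [ht1, ht2, ht3], rfl⟩, seg_ne_zero ht10 ht20 ht30, ?_⟩
    have h9 := XA_smul hG hy (a1 * a2 * a3)⁻¹
    rwa [hys, smul_smul, inv_mul_cancel₀ ha, one_smul] at h9
  have hlim : ∀ x : Fin 8 → L,
      (∀ U ∈ 𝓝 x, ∃ y ∈ XA G, y ≠ 0 ∧ Near σ U y ∧ ∀ e ∈ E, ∀ t : K, y ≠ t • e) →
      localIdeal σ (surf G) x = IX G := by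
    intro x hx
    rw [localIdeal_eq_XA]
    refine Set.Subset.antisymm ?_ (IX_subset_LI hG x)
    rintro f ⟨U, hU, hf⟩
    obtain ⟨V, hVU, hVo, hxV⟩ := mem_nhds_iff.1 hU
    obtain ⟨y, hy, hy0, ⟨a, ha, haV⟩, hyE⟩ := hx V (hVo.mem_nhds hxV)
    have h4 : f ∈ LI σ (XA G) (a • sv σ y) := ⟨V, hVo.mem_nhds haV,
      fun v hv hv0 hn t => hf v hv hv0 (hn.mono hVU) t⟩
    have h5 := LI_smul_le _ _ ha h4
    rwa [key y hy hy0 hyE] at h5
  refine ⟨hlim, ?_⟩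
  intro x
  by_cases hx : ∀ U ∈ 𝓝 x, ∃ y ∈ XA G, y ≠ 0 ∧ Near σ U y ∧ ∀ e ∈ E, ∀ t : K, y ≠ t • e
  · exact Or.inl (hlim x hx)
  · right
    push Not at hx
    obtain ⟨U, hU, hx⟩ := hx
    obtain ⟨S, hS, hS'⟩ := LI_finite_lines (σ := σ) (A := XA G) (E := E) hU
      (fun y hy hy0 hn => by
        obtain ⟨e, he, t, h1⟩ := hx y hy hy0 hn
        exact ⟨e, he, t, h1⟩)
    exact ⟨S, hS, by rw [localIdeal_eq_XA]; exact hS'⟩

end Final

end Pool.Agent.K3M
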